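import Mathlib

/-!
# A biadditive alternating operation in characteristic two with `(z x)(z y) = 0`

`V` a finite abelian group with `x + x = 0`, `m` biadditive, `m x x = 0`, `m (m z x) (m z y) = 0`.
If the products generate `V` then `V` is trivial (helper24's lemma, note 6743 (2)): the iterated products
in `2^k` variables, `F (k+1) = m (F k) (F k)`, are totally alternating, so they vanish if `2^k > #V`.
-/

set_option autoImplicit false

namespace ALoop

open Equiv

/-- the index type with `2^k` elements -/
def TI : ℕ → Type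
  | 0 => Unit
  | (k + 1) => TI k ⊕ TI k

/-- left half -/
def il {k : ℕ} (x : TI k) : TI (k + 1) := (Sum.inl x : TI k ⊕ TI k)

/-- right half -/
def ir {k : ℕ} (x : TI k) : TI (k + 1) := (Sum.inr x : TI k ⊕ TI k)

theorem il_inj {k : ℕ} {x y : TI k} (h : il x = il y) : x = y := Sum.inl_injective h

theorem ir_inj {k : ℕ} {x y : TI k} (h : ir x = ir y) : x = y := Sum.inr_injective h

theorem il_ne_ir {k : ℕ} {x y : TI k} : il x ≠ ir y := fun h => Sum.inl_ne_inr h

theorem ir_ne_il {k : ℕ} {x y : TI k} : ir x ≠ il y := fun h => Sum.inr_ne_inl h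

theorem ti_cases {k : ℕ} (x : TI (k + 1)) : (∃ a, x = il a) ∨ (∃ a, x = ir a) := by
  rcases (x : TI k ⊕ TI k) with a | a
  · exact Or.inl ⟨a, rfl⟩
  · exact Or.inr ⟨a, rfl⟩

/-- function on the two halves -/
def ie {V : Type*} {k : ℕ} (f g : TI k → V) : TI (k + 1) → V :=
  fun i => Sum.elim f g (i : TI k ⊕ TI k)

theorem ie_il {V : Type*} {k : ℕ} (f g : TI k → V) (a : TI k) : ie f g (il a) = f a := rfl

theorem ie_ir {V : Type*} {k : ℕ} (f g : TI k → V) (a : TI k) : ie f g (ir a) = g a := rfl

/-- an element of the index type -/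
def TI.pt : (k : ℕ) → TI k
  | 0 => ()
  | (k + 1) => il (TI.pt k)

noncomputable instance TI.fin : (k : ℕ) → Fintype (TI k)
  | 0 => inferInstanceAs (Fintype Unit)
  | (k + 1) => letI := TI.fin k; inferInstanceAs (Fintype (TI k ⊕ TI k))

theorem TI.card (k : ℕ) : Fintype.card (TI k) = 2 ^ k := by
  induction k with
  | zero => rfl
  | succ n ih =>
    have : Fintype.card (TI (n + 1)) = Fintype.card (TI n ⊕ TI n) := rfl
    rw [this, Fintype.card_sum, ih]
    ring

section alt

variable {V : Type*} [AddCommGroup V] (m : V → V → V)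

/-- the iterated product -/
def FF : (k : ℕ) → (TI k → V) → V
  | 0 => fun v => v ()
  | (k + 1) => fun v => m (FF k (fun i => v (il i))) (FF k (fun i => v (ir i)))

variable {m}

omit [AddCommGroup V] in
theorem FF_succ (k : ℕ) (v : TI (k + 1) → V) :
    FF m (k + 1) v = m (FF m k (fun i => v (il i))) (FF m k (fun i => v (ir i))) := rfl

open Classical in
omit [AddCommGroup V] in
theorem swap_il {k : ℕ} (s t : TI k) (v : TI (k + 1) → V) :
    (fun i : TI k => v (Equiv.swap (il s) (il t) (il i))) =
      fun i => (fun j => v (il j)) (Equiv.swap s t i) := by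
  funext i
  simp only
  congr 1
  by_cases h1 : i = s
  · subst h1; rw [Equiv.swap_apply_left, Equiv.swap_apply_left]
  · by_cases h2 : i = t
    · subst h2; rw [Equiv.swap_apply_right, Equiv.swap_apply_right]
    · rw [Equiv.swap_apply_of_ne_of_ne h1 h2, Equiv.swap_apply_of_ne_of_ne
        (fun h => h1 (il_inj h)) (fun h => h2 (il_inj h))]

open Classical in
omit [AddCommGroup V] in
theorem swap_ir {k : ℕ} (s t : TI k) (v : TI (k + 1) → V) :
    (fun i : TI k => v (Equiv.swap (ir s) (ir t) (ir i))) =
      fun i => (fun j => v (ir j)) (Equiv.swap s t i) := by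
  funext i
  simp only
  congr 1
  by_cases h1 : i = s
  · subst h1; rw [Equiv.swap_apply_left, Equiv.swap_apply_left]
  · by_cases h2 : i = t
    · subst h2; rw [Equiv.swap_apply_right, Equiv.swap_apply_right]
    · rw [Equiv.swap_apply_of_ne_of_ne h1 h2, Equiv.swap_apply_of_ne_of_ne
        (fun h => h1 (ir_inj h)) (fun h => h2 (ir_inj h))]

open Classical in
theorem FF_alt (hc : ∀ x y, m x y = m y x) (h0 : ∀ x, m x x = 0) (hz1 : ∀ x, m 0 x = 0)
    (hf : ∀ a b c d, m (m a b) (m c d) = m (m a c) (m b d)) (k : ℕ) :
    (∀ (s t : TI k) (v : TI k → V), FF m k (fun i => v (Equiv.swap s t i)) = FF m k v) ∧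
      (∀ (s t : TI k) (v : TI k → V), s ≠ t → v s = v t → FF m k v = 0) := by
  induction k with
  | zero =>
    refine ⟨?_, ?_⟩
    · intro s t v
      have : s = t := Subsingleton.elim (α := Unit) s t
      rw [this, Equiv.swap_self]; rfl
    · intro s t v hst
      exact absurd (Subsingleton.elim (α := Unit) s t) hst
  | succ k ih =>
    obtain ⟨ih1, ih2⟩ := ih
    -- invariance under transpositions inside the halves
    have hL : ∀ (s t : TI k) (v : TI (k + 1) → V),
        FF m (k + 1) (fun i => v (Equiv.swap (il s) (il t) i)) = FF m (k + 1) v := by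
      intro s t v
      rw [FF_succ, FF_succ]
      have e2 : (fun i : TI k => v (Equiv.swap (il s) (il t) (ir i))) =
          fun i => v (ir i) := by
        funext i
        rw [Equiv.swap_apply_of_ne_of_ne ir_ne_il ir_ne_il]
      rw [swap_il, e2]
      exact congrArg₂ m (ih1 s t (fun j => v (il j))) rfl
    have hR : ∀ (s t : TI k) (v : TI (k + 1) → V),
        FF m (k + 1) (fun i => v (Equiv.swap (ir s) (ir t) i)) = FF m (k + 1) v := by
      intro s t v
      rw [FF_succ, FF_succ]
      have e2 : (fun i : TI k => v (Equiv.swap (ir s) (ir t) (il i))) =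
          fun i => v (il i) := by
        funext i
        rw [Equiv.swap_apply_of_ne_of_ne il_ne_ir il_ne_ir]
      rw [swap_ir, e2]
      exact congrArg₂ m rfl (ih1 s t (fun j => v (ir j)))
    -- one transposition between the halves
    obtain ⟨a, c, hac⟩ : ∃ a c : TI k, ∀ v : TI (k + 1) → V,
        FF m (k + 1) (fun i => v (Equiv.swap (il a) (ir c) i)) = FF m (k + 1) v := by
      cases k with
      | zero =>
        refine ⟨TI.pt 0, TI.pt 0, ?_⟩
        intro v
        change m (v (Equiv.swap (il (TI.pt 0)) (ir (TI.pt 0)) (il (TI.pt 0))))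
          (v (Equiv.swap (il (TI.pt 0)) (ir (TI.pt 0)) (ir (TI.pt 0)))) =
          m (v (il (TI.pt 0))) (v (ir (TI.pt 0)))
        rw [Equiv.swap_apply_left, Equiv.swap_apply_right, hc]
      | succ n =>
        refine ⟨il (TI.pt n), il (TI.pt n), ?_⟩
        intro v
        -- blocks
        have key : ∀ w : TI (n + 2) → V, FF m (n + 2) w =
            m (FF m (n + 1) (ie (fun j => w (il (il j))) (fun j => w (ir (il j)))))
              (m (FF m n (fun j => w (il (ir j)))) (FF m n (fun j => w (ir (ir j))))) := by
          intro w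
          rw [FF_succ, FF_succ, FF_succ, FF_succ]
          exact hf _ _ _ _
        rw [key, key v]
        have e1 : ie
            (fun j => v (Equiv.swap (il (il (TI.pt n))) (ir (il (TI.pt n))) (il (il j))))
            (fun j => v (Equiv.swap (il (il (TI.pt n))) (ir (il (TI.pt n))) (ir (il j)))) =
            fun i : TI (n + 1) => (ie (fun j => v (il (il j))) (fun j => v (ir (il j))))
                (Equiv.swap (il (TI.pt n)) (ir (TI.pt n)) i) := by
          funext i
          rcases ti_cases i with ⟨j, rfl⟩ | ⟨j, rfl⟩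
          · by_cases h1 : j = TI.pt n
            · subst h1
              rw [ie_il, Equiv.swap_apply_left, Equiv.swap_apply_left, ie_ir]
            · rw [ie_il, Equiv.swap_apply_of_ne_of_ne (fun h => h1 (il_inj (il_inj h))) il_ne_ir,
                Equiv.swap_apply_of_ne_of_ne (fun h => h1 (il_inj h)) il_ne_ir, ie_il]
          · by_cases h1 : j = TI.pt n
            · subst h1
              rw [ie_ir, Equiv.swap_apply_right, Equiv.swap_apply_right, ie_il]
            · rw [ie_ir, Equiv.swap_apply_of_ne_of_ne ir_ne_il (fun h => h1 (il_inj (ir_inj h))),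
                Equiv.swap_apply_of_ne_of_ne ir_ne_il (fun h => h1 (ir_inj h)), ie_ir]
        have e3 : (fun j => v (Equiv.swap (il (il (TI.pt n))) (ir (il (TI.pt n))) (il (ir j)))) =
            fun j => v (il (ir j)) := by
          funext j
          rw [Equiv.swap_apply_of_ne_of_ne (fun h => ir_ne_il (il_inj h)) il_ne_ir]
        have e4 : (fun j => v (Equiv.swap (il (il (TI.pt n))) (ir (il (TI.pt n))) (ir (ir j)))) =
            fun j => v (ir (ir j)) := by
          funext j
          rw [Equiv.swap_apply_of_ne_of_ne ir_ne_il (fun h => ir_ne_il (ir_inj h))]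
        rw [e1, e3, e4]
        exact congrArg₂ m (ih1 (il (TI.pt n)) (ir (TI.pt n))
          (ie (fun j => v (il (il j))) (fun j => v (ir (il j))))) rfl
    -- the relation `swap s t` preserves `FF` is an equivalence
    have htr : ∀ x y z : TI (k + 1), (∀ v : TI (k + 1) → V,
        FF m (k + 1) (fun i => v (Equiv.swap x y i)) = FF m (k + 1) v) →
        (∀ v : TI (k + 1) → V, FF m (k + 1) (fun i => v (Equiv.swap y z i)) = FF m (k + 1) v) →
        ∀ v : TI (k + 1) → V, FF m (k + 1) (fun i => v (Equiv.swap x z i)) = FF m (k + 1) v := by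
      intro x y z h1 h2 v
      by_cases hxz : x = z
      · rw [hxz, Equiv.swap_self]; rfl
      by_cases hxy : x = y
      · rw [hxy]; exact h2 v
      by_cases hyz : y = z
      · rw [← hyz]; exact h1 v
      have e : Equiv.swap x z = (Equiv.swap x y) * (Equiv.swap y z) * (Equiv.swap x y) := by
        have h3 := Equiv.swap_mul_swap_mul_swap (x := z) (y := y) (z := x) (Ne.symm hyz) (Ne.symm hxz)
        rw [Equiv.swap_comm y x, Equiv.swap_comm z y] at h3
        exact h3.symm
      have e' : (fun i => v (Equiv.swap x z i)) =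
          fun i => (fun j => (fun l => v (Equiv.swap x y l)) (Equiv.swap y z j)) (Equiv.swap x y i) := by
        funext i
        rw [e]; rfl
      rw [e']
      exact ((h1 (fun j => (fun l => v (Equiv.swap x y l)) (Equiv.swap y z j))).trans
        (h2 (fun l => v (Equiv.swap x y l)))).trans (h1 v)
    have hsy : ∀ x y : TI (k + 1), (∀ v : TI (k + 1) → V,
        FF m (k + 1) (fun i => v (Equiv.swap x y i)) = FF m (k + 1) v) →
        (∀ v : TI (k + 1) → V, FF m (k + 1) (fun i => v (Equiv.swap y x i)) = FF m (k + 1) v) := by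
      intro x y h1 v
      rw [Equiv.swap_comm]; exact h1 v
    have hLR : ∀ s t : TI k, ∀ v : TI (k + 1) → V,
        FF m (k + 1) (fun i => v (Equiv.swap (il s) (ir t) i)) = FF m (k + 1) v := by
      intro s t
      apply htr _ (il a) _ (hL s a)
      apply htr _ (ir c) _ hac
      exact hR c t
    have hall : ∀ (s t : TI (k + 1)) (v : TI (k + 1) → V),
        FF m (k + 1) (fun i => v (Equiv.swap s t i)) = FF m (k + 1) v := by
      intro s t
      rcases ti_cases s with ⟨s, rfl⟩ | ⟨s, rfl⟩ <;> rcases ti_cases t with ⟨t, rfl⟩ | ⟨t, rfl⟩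
      · exact hL s t
      · exact hLR s t
      · exact hsy _ _ (hLR t s)
      · exact hR s t
    refine ⟨hall, ?_⟩
    intro s t v hst hv
    -- move the two equal entries into good position
    cases k with
    | zero =>
      have e1 : FF m 1 v = m (v (il (TI.pt 0))) (v (ir (TI.pt 0))) := rfl
      have hu : ∀ x : TI 0, x = TI.pt 0 := fun x => Subsingleton.elim (α := Unit) _ _
      rw [e1]
      rcases ti_cases s with ⟨s, rfl⟩ | ⟨s, rfl⟩ <;> rcases ti_cases t with ⟨t, rfl⟩ | ⟨t, rfl⟩
      · rw [hu s, hu t] at hst; exact absurd rfl hst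
      · rw [hu s, hu t] at hv; rw [hv, h0]
      · rw [hu s, hu t] at hv; rw [hv, h0]
      · rw [hu s, hu t] at hst; exact absurd rfl hst
    | succ n =>
      obtain ⟨x, hx⟩ : ∃ x : TI (n + 1), x = il (TI.pt n) := ⟨_, rfl⟩
      obtain ⟨y, hy⟩ : ∃ y : TI (n + 1), y = ir (TI.pt n) := ⟨_, rfl⟩
      have hxy : x ≠ y := by rw [hx, hy]; exact il_ne_ir
      -- first swap
      obtain ⟨v1, hv1⟩ : ∃ v1 : TI (n + 2) → V,
          v1 = fun i => v (Equiv.swap (il x) s i) := ⟨_, rfl⟩
      obtain ⟨t', ht'⟩ : ∃ t' : TI (n + 2), t' = Equiv.swap (il x) s t := ⟨_, rfl⟩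
      have ht1 : t' ≠ il x := by
        intro h
        rw [ht'] at h
        have h2 : t = s := by
          have := congrArg (Equiv.swap (il x) s) h
          rw [Equiv.swap_apply_left] at this
          rw [← this]
          simp
        exact hst h2.symm
      obtain ⟨v2, hv2⟩ : ∃ v2 : TI (n + 2) → V,
          v2 = fun i => v1 (Equiv.swap (il y) t' i) := ⟨_, rfl⟩
      have hF : FF m (n + 2) v = FF m (n + 2) v2 := by
        rw [hv2, hv1]
        exact ((hall (il y) t' (fun i => v (Equiv.swap (il x) s i))).trans (hall (il x) s v)).symm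
      have h2x : v2 (il x) = v s := by
        rw [hv2]
        simp only
        rw [Equiv.swap_apply_of_ne_of_ne (fun h => hxy (il_inj h)) (Ne.symm ht1), hv1]
        simp only
        rw [Equiv.swap_apply_left]
      have h2y : v2 (il y) = v t := by
        rw [hv2]
        simp only
        rw [Equiv.swap_apply_left, hv1, ht']
        simp
      rw [hF, FF_succ]
      rw [ih2 x y (fun i => v2 (il i)) hxy (by rw [h2x, h2y, hv]), hz1]

end alt

/-- if the products generate `V` then `V` is trivial -/
theorem alt_trivial {V : Type*} [AddCommGroup V] [Finite V] (m : V → V → V)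
    (h2 : ∀ x : V, x + x = 0) (hadd : ∀ x y z, m (x + y) z = m x z + m y z)
    (hc : ∀ x y, m x y = m y x) (h0 : ∀ x, m x x = 0)
    (hA : ∀ x y z, m (m z x) (m z y) = 0)
    (hgen : AddSubgroup.closure {w : V | ∃ x y, w = m x y} = ⊤) : ∀ x : V, x = 0 := by
  classical
  have := Fintype.ofFinite V
  have hz1 : ∀ x, m 0 x = 0 := by
    intro x
    have := hadd 0 0 x
    rw [add_zero] at this
    exact left_eq_add.1 this
  have hadd' : ∀ x y z, m z (x + y) = m z x + m z y := by
    intro x y z
    rw [hc, hadd, hc x, hc y]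
  have hneg : ∀ x y, m (-x) y = - m x y := by
    intro x y
    have := hadd x (-x) y
    rw [add_neg_cancel, hz1] at this
    exact (neg_eq_of_add_eq_zero_right this.symm).symm
  have hf : ∀ a b c d, m (m a b) (m c d) = m (m a c) (m b d) := by
    intro a b c d
    have h := hA a d (b + c)
    rw [hadd, hadd, hadd, hadd', hadd', hA, hA, zero_add, add_zero] at h
    -- `m (m b a) (m c d) + m (m c a) (m b d) = 0`
    have h3 : m (m b a) (m c d) = m (m c a) (m b d) := by
      have h4 := h2 (m (m c a) (m b d))
      exact add_right_cancel (h.trans h4.symm)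
    rw [hc a b, h3, hc c a]
  have hD : ∀ k : ℕ, AddSubgroup.closure (Set.range (FF m k)) = ⊤ := by
    intro k
    induction k with
    | zero =>
      rw [eq_top_iff]
      intro x _
      exact AddSubgroup.subset_closure ⟨fun _ => x, rfl⟩
    | succ k ih =>
      rw [eq_top_iff, ← hgen, AddSubgroup.closure_le]
      rintro w ⟨x, y, rfl⟩
      have hx : x ∈ AddSubgroup.closure (Set.range (FF m k)) := by rw [ih]; trivial
      have hy : y ∈ AddSubgroup.closure (Set.range (FF m k)) := by rw [ih]; trivial
      rw [SetLike.mem_coe]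
      induction hx using AddSubgroup.closure_induction with
      | mem x hx =>
        obtain ⟨u, rfl⟩ := hx
        rw [hc]
        induction hy using AddSubgroup.closure_induction with
        | mem y hy =>
          obtain ⟨w, rfl⟩ := hy
          exact AddSubgroup.subset_closure ⟨ie w u, rfl⟩
        | zero => rw [hz1]; exact AddSubgroup.zero_mem _
        | add a b _ _ h3 h4 => rw [hadd]; exact AddSubgroup.add_mem _ h3 h4
        | neg a _ h3 => rw [hneg]; exact AddSubgroup.neg_mem _ h3
      | zero => rw [hz1]; exact AddSubgroup.zero_mem _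
      | add a b _ _ h3 h4 => rw [hadd]; exact AddSubgroup.add_mem _ h3 h4
      | neg a _ h3 => rw [hneg]; exact AddSubgroup.neg_mem _ h3
  obtain ⟨k, hk⟩ : ∃ k : ℕ, Fintype.card V < 2 ^ k := ⟨Fintype.card V, Nat.lt_two_pow_self⟩
  have hz : ∀ v : TI k → V, FF m k v = 0 := by
    intro v
    have hni : ¬ Function.Injective v := by
      intro hi
      have := Fintype.card_le_of_injective v hi
      rw [TI.card] at this
      omega
    rw [Function.not_injective_iff] at hni
    obtain ⟨s, t, h1, h3⟩ := hni
    exact (FF_alt hc h0 hz1 hf k).2 s t v h3 h1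
  have hbot : AddSubgroup.closure (Set.range (FF m k)) = ⊥ := by
    rw [eq_bot_iff, AddSubgroup.closure_le]
    rintro w ⟨v, rfl⟩
    rw [SetLike.mem_coe, AddSubgroup.mem_bot]
    exact hz v
  intro x
  have : x ∈ (⊤ : AddSubgroup V) := trivial
  rw [← hD k, hbot] at this
  exact AddSubgroup.mem_bot.1 this

end ALoop
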