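import Pool.Agent.H17.E2.Ter
import Pool.Agent.H17.E2.Alt

/-!
# Exponent two: the affine case

If the multiplication group of a simple commutative automorphic loop of exponent two has a nontrivial
abelian normal subgroup then the loop is associative.
-/

set_option autoImplicit false

namespace ALoop

open Equiv

/-- additive algebra -/
theorem hA_of_J {W : Type*} [AddCommGroup W] (m : W → W → W)
    (hadd : ∀ x y z, m (x + y) z = m x z + m y z)
    (hc : ∀ x y, m x y = m y x) (h0 : ∀ x, m x x = 0)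
    (hJ : ∀ a b c, m a (m b c) = m (m a b) (m a c) + m (m a b) c + m b (m a c)) :
    ∀ x y z, m (m z x) (m z y) = 0 := by
  have hz1 : ∀ x, m 0 x = 0 := by
    intro x
    have := hadd 0 0 x
    rw [add_zero] at this
    exact left_eq_add.1 this
  have hadd' : ∀ x y z, m z (x + y) = m z x + m z y := by
    intro x y z
    rw [hc, hadd, hc x, hc y]
  have hcross : ∀ a a' b c, m (m a b) (m a' c) + m (m a' b) (m a c) = 0 := by
    intro a a' b c
    have h1 := hJ (a + a') b c
    rw [hadd a a' (m b c), hadd a a' b, hadd a a' c, hadd (m a b), hadd' (m a c), hadd' (m a c),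
      hadd (m a b) (m a' b) c, hadd' (m a c) (m a' c) b, hJ a b c, hJ a' b c] at h1
    have h2 : m (m a b) (m a' c) + m (m a' b) (m a c) =
        (m (m a b) (m a c) + m (m a b) (m a' c) + (m (m a' b) (m a c) + m (m a' b) (m a' c)) +
          (m (m a b) c + m (m a' b) c) + (m b (m a c) + m b (m a' c))) -
        (m (m a b) (m a c) + m (m a b) c + m b (m a c) +
          (m (m a' b) (m a' c) + m (m a' b) c + m b (m a' c))) := by abel
    rw [h2, ← h1, sub_self]
  intro x y z
  have h3 := hcross x z z y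
  rw [h0, hz1, add_zero, hc x z] at h3
  exact h3

variable {Q : Type*} {G : Subgroup (Perm Q)} {L : Q → Perm Q} {e : Q}

/-- a nontrivial normal subgroup is transitive -/
theorem AE.trans_of_normal (h : AE G L e) {N : Subgroup (Perm Q)} (hN : Nm G N) (hne : N ≠ ⊥) :
    ∀ a b : Q, ∃ n ∈ N, n a = b := by
  have heq : Equivalence (fun a b : Q => ∃ n ∈ N, n a = b) := by
    refine ⟨fun a => ⟨1, N.one_mem, rfl⟩, ?_, ?_⟩
    · rintro a b ⟨n, hn, rfl⟩
      exact ⟨n⁻¹, N.inv_mem hn, AE.inv_ap n a⟩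
    · rintro a b c ⟨n, hn, rfl⟩ ⟨n', hn', rfl⟩
      exact ⟨n' * n, N.mul_mem hn' hn, rfl⟩
  rcases h.prim _ heq (by
    rintro g hg a b ⟨n, hn, rfl⟩
    refine ⟨g * n * g⁻¹, hN g hg n hn, ?_⟩
    rw [Perm.mul_apply, Perm.mul_apply, AE.inv_ap]) with h1 | h1
  · exfalso
    apply hne
    rw [eq_bot_iff]
    intro n hn
    rw [Subgroup.mem_bot]
    ext a
    exact (h1 a (n a) ⟨n, hn, rfl⟩).symm
  · exact h1

/-- the operation on `V` -/
def mm (L : Q → Perm Q) (e : Q) (a b : Perm Q) : Perm Q := L (a e) * b * (L (a e))⁻¹ * b⁻¹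

section aff

variable {V : Subgroup (Perm Q)} (h : AE G L e) (hN : Nm G V) (hne : V ≠ ⊥)
  (hab : ∀ a ∈ V, ∀ b ∈ V, a * b = b * a)

include h hN hne hab

theorem AE.reg {v w : Perm Q} (hv : v ∈ V) (hw : w ∈ V) (hvw : v e = w e) : v = w := by
  have h1 : w⁻¹ * v = 1 := by
    ext q
    obtain ⟨n, hn, rfl⟩ := h.trans_of_normal hN hne e q
    have hx : (w⁻¹ * v) * n = n * (w⁻¹ * v) := hab _ (V.mul_mem (V.inv_mem hw) hv) _ hn
    calc (w⁻¹ * v) (n e) = ((w⁻¹ * v) * n) e := rfl
      _ = (n * (w⁻¹ * v)) e := by rw [hx]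
      _ = n (w⁻¹ (v e)) := rfl
      _ = n e := by rw [hvw, AE.inv_ap]
      _ = (1 : Perm Q) (n e) := rfl
  exact (inv_mul_eq_one.1 h1).symm

omit hne in
theorem AE.mm_mem {a b : Perm Q} (hb : b ∈ V) : mm L e a b ∈ V :=
  V.mul_mem (hN _ (h.memL _) b hb) (V.inv_mem hb)

theorem AE.mm_comm {a b : Perm Q} (ha : a ∈ V) (hb : b ∈ V) : mm L e a b = mm L e b a := by
  have h1 : L (a e) * b * (L (a e))⁻¹ * a = L (b e) * a * (L (b e))⁻¹ * b := by
    apply h.reg hN hne hab (V.mul_mem (hN _ (h.memL _) b hb) ha)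
      (V.mul_mem (hN _ (h.memL _) a ha) hb)
    have e1 : (L (a e) * b * (L (a e))⁻¹ * a) e = L (a e) (b e) := by
      have : (L (a e))⁻¹ (a e) = e := by rw [Perm.inv_eq_iff_eq, h.Le]
      rw [Perm.mul_apply, Perm.mul_apply, Perm.mul_apply, this]
    have e2 : (L (b e) * a * (L (b e))⁻¹ * b) e = L (b e) (a e) := by
      have : (L (b e))⁻¹ (b e) = e := by rw [Perm.inv_eq_iff_eq, h.Le]
      rw [Perm.mul_apply, Perm.mul_apply, Perm.mul_apply, this]
    rw [e1, e2, h.com]
  unfold mm
  have c1 := hab _ (hN _ (h.memL (a e)) b hb) _ ha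
  have h2 : L (a e) * b * (L (a e))⁻¹ = L (b e) * a * (L (b e))⁻¹ * b * a⁻¹ := by
    rw [← h1]; group
  rw [h2]
  have c2 : b * a⁻¹ * b⁻¹ = a⁻¹ := by
    rw [hab b hb a⁻¹ (V.inv_mem ha)]; group
  calc L (b e) * a * (L (b e))⁻¹ * b * a⁻¹ * b⁻¹ =
      L (b e) * a * (L (b e))⁻¹ * (b * a⁻¹ * b⁻¹) := by group
    _ = _ := by rw [c2]

omit hne in
theorem AE.mm_mul {a b c : Perm Q} (hb : b ∈ V) (hc : c ∈ V) :
    mm L e a (b * c) = mm L e a b * mm L e a c := by
  have h1 := hab _ (V.inv_mem hb) _ (AE.mm_mem h hN hab (a := a) hc)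
  have e1 : mm L e a (b * c) = (L (a e) * b * (L (a e))⁻¹) * mm L e a c * b⁻¹ := by
    unfold mm; group
  have e2 : mm L e a b * mm L e a c = (L (a e) * b * (L (a e))⁻¹) * (b⁻¹ * mm L e a c) := by
    unfold mm; group
  rw [e1, e2, h1]; group

omit hN hne hab in
theorem AE.mm_conj {k : Perm Q} (hk : k ∈ G) (hke : k e = e) (a b : Perm Q) :
    k * mm L e a b * k⁻¹ = mm L e (k * a * k⁻¹) (k * b * k⁻¹) := by
  have h1 : (k * a * k⁻¹) e = k (a e) := by
    have : k⁻¹ e = e := by rw [Perm.inv_eq_iff_eq, hke]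
    rw [Perm.mul_apply, Perm.mul_apply, this]
  unfold mm
  rw [h1, ← h.equi k hk hke (a e)]
  group

omit hN in
theorem AE.mm_self_aux {a : Perm Q} (hN : Nm G V) (ha : a ∈ V) : mm L e a a * (a * a) = 1 := by
  have h1 : L (a e) * a * (L (a e))⁻¹ * a = 1 := by
    apply h.reg hN hne hab (V.mul_mem (hN _ (h.memL _) a ha) ha) V.one_mem
    have : (L (a e))⁻¹ (a e) = e := by rw [Perm.inv_eq_iff_eq, h.Le]
    rw [Perm.mul_apply, Perm.mul_apply, Perm.mul_apply, this, h.sq]; rfl
  unfold mm
  calc L (a e) * a * (L (a e))⁻¹ * a⁻¹ * (a * a) = L (a e) * a * (L (a e))⁻¹ * a := by group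
    _ = 1 := h1

end aff

/-- THE AFFINE CASE -/
theorem AE.affine [Finite Q] (h : AE G L e) {V : Subgroup (Perm Q)} (hVG : V ≤ G) (hN : Nm G V)
    (hne : V ≠ ⊥) (hab : ∀ a ∈ V, ∀ b ∈ V, a * b = b * a) : Assoc L := by
  classical
  have : Finite (Perm Q) := inferInstance
  let cg : CommGroup V := { (inferInstance : Group V) with
    mul_comm := fun a b => Subtype.ext (hab a a.2 b b.2) }
  -- the additive group
  let m : Additive V → Additive V → Additive V := fun a b =>
    Additive.ofMul ⟨mm L e (Additive.toMul a : V) (Additive.toMul b : V),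
      h.mm_mem hN hab (Additive.toMul b).2⟩
  have hmval : ∀ a b : Additive V, ((Additive.toMul (m a b) : V) : Perm Q) =
      mm L e (Additive.toMul a : V) (Additive.toMul b : V) := fun _ _ => rfl
  have hext : ∀ a b : Additive V, ((Additive.toMul a : V) : Perm Q) = (Additive.toMul b : V) →
      a = b := fun a b hh => Subtype.ext hh
  have hc : ∀ x y, m x y = m y x := by
    intro x y
    apply hext
    rw [hmval, hmval]
    exact h.mm_comm hN hne hab (Additive.toMul x).2 (Additive.toMul y).2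
  have hadd' : ∀ x y z, m z (x + y) = m z x + m z y := by
    intro x y z
    apply hext
    exact h.mm_mul hN hab (Additive.toMul x).2 (Additive.toMul y).2
  have hadd : ∀ x y z, m (x + y) z = m x z + m y z := by
    intro x y z
    rw [hc, hadd', hc z x, hc z y]
  have hself : ∀ x, m x x + (x + x) = 0 := by
    intro x
    apply hext
    exact h.mm_self_aux hne hab hN (Additive.toMul x).2
  have h2m : ∀ x y, m x y + m x y = 0 := by
    intro x y
    have h1 := hself (x + y)
    rw [hadd, hadd', hadd', hc y x] at h1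
    have h2 := hself x
    have h3 := hself y
    have h4 : m x y + m x y = (m x x + m x y + (m x y + m y y) + (x + y + (x + y))) -
        (m x x + (x + x)) - (m y y + (y + y)) := by abel
    rw [h4, h1, h2, h3]; simp
  have hphi : ∀ a ∈ V, ∀ v ∈ V, (a⁻¹ * L (a e)) * v * (a⁻¹ * L (a e))⁻¹ = mm L e a v * v := by
    intro a ha v hv
    have h1 := hab _ (V.inv_mem ha) _ (hN _ (h.memL (a e)) v hv)
    calc (a⁻¹ * L (a e)) * v * (a⁻¹ * L (a e))⁻¹ = (a⁻¹ * (L (a e) * v * (L (a e))⁻¹)) * a := by group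
      _ = L (a e) * v * (L (a e))⁻¹ * a⁻¹ * a := by rw [h1]
      _ = mm L e a v * v := by unfold mm; group
  have hJ : ∀ a b c, m a (m b c) = m (m a b) (m a c) + m (m a b) c + m b (m a c) := by
    intro a b c
    have ha := (Additive.toMul a).2
    have hb := (Additive.toMul b).2
    have hcc := (Additive.toMul c).2
    have hk : ((Additive.toMul a : V) : Perm Q)⁻¹ * L (((Additive.toMul a : V) : Perm Q) e) ∈ G :=
      G.mul_mem (G.inv_mem (hVG ha)) (h.memL _)
    have hke : (((Additive.toMul a : V) : Perm Q)⁻¹ *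
        L (((Additive.toMul a : V) : Perm Q) e)) e = e := by
      rw [Perm.mul_apply, h.Le, AE.inv_ap]
    have h1 := h.mm_conj hk hke ((Additive.toMul b : V) : Perm Q) ((Additive.toMul c : V) : Perm Q)
    rw [hphi _ ha _ hb, hphi _ ha _ hcc, hphi _ ha _ (h.mm_mem hN hab hcc)] at h1
    have h2 : m a (m b c) + m b c = m (m a b + b) (m a c + c) := by
      apply hext
      exact h1
    rw [hadd, hadd', hadd'] at h2
    have h3 : m a (m b c) = (m a (m b c) + m b c) - m b c := by abel
    rw [h3, h2]; abel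
  -- the subgroup generated by the products
  obtain ⟨M, hM⟩ : ∃ M : Subgroup (Perm Q), M = Subgroup.closure
      {g | ∃ a ∈ V, ∃ b ∈ V, g = mm L e a b} := ⟨_, rfl⟩
  have hMV : M ≤ V := by
    rw [hM, Subgroup.closure_le]
    rintro g ⟨a, _, b, hb, rfl⟩
    exact h.mm_mem hN hab hb
  have hMN : Nm G M := by
    intro g hg n hn
    -- `g = v k`
    obtain ⟨v, hv, hve⟩ := h.trans_of_normal hN hne e (g e)
    have hk : v⁻¹ * g ∈ G := G.mul_mem (G.inv_mem (hVG hv)) hg
    have hke : (v⁻¹ * g) e = e := by rw [Perm.mul_apply, ← hve, AE.inv_ap]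
    have h1 : (v⁻¹ * g) * n * (v⁻¹ * g)⁻¹ ∈ M := by
      rw [hM] at hn
      induction hn using Subgroup.closure_induction with
      | mem x hx =>
        obtain ⟨a, ha, b, hb, rfl⟩ := hx
        rw [h.mm_conj hk hke, hM]
        exact Subgroup.subset_closure ⟨_, hN _ hk a ha, _, hN _ hk b hb, rfl⟩
      | one => rw [mul_one, mul_inv_cancel]; exact M.one_mem
      | mul x y _ _ hx hy =>
        have : (v⁻¹ * g) * (x * y) * (v⁻¹ * g)⁻¹ =
            ((v⁻¹ * g) * x * (v⁻¹ * g)⁻¹) * ((v⁻¹ * g) * y * (v⁻¹ * g)⁻¹) := by group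
        rw [this]; exact M.mul_mem hx hy
      | inv x _ hx =>
        have : (v⁻¹ * g) * x⁻¹ * (v⁻¹ * g)⁻¹ = ((v⁻¹ * g) * x * (v⁻¹ * g)⁻¹)⁻¹ := by group
        rw [this]; exact M.inv_mem hx
    have h2 : g * n * g⁻¹ = v * ((v⁻¹ * g) * n * (v⁻¹ * g)⁻¹) * v⁻¹ := by group
    rw [h2, hab v hv _ (hMV h1)]
    rw [mul_assoc, mul_inv_cancel, mul_one]
    exact h1
  have hMbot : M = ⊥ := by
    by_contra hMne
    have hVM : V ≤ M := by
      intro v hv
      obtain ⟨n, hn, hne'⟩ := h.trans_of_normal hMN hMne e (v e)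
      rw [← h.reg hN hne hab (hMV hn) hv hne']
      exact hn
    have hcl : ∀ x : Additive V, x ∈ AddSubgroup.closure {w : Additive V | ∃ x y, w = m x y} := by
      intro x
      have hx : ((Additive.toMul x : V) : Perm Q) ∈ M := hVM (Additive.toMul x).2
      have key : ∀ g ∈ M, ∀ hg : g ∈ V, (Additive.ofMul (⟨g, hg⟩ : V)) ∈
          AddSubgroup.closure {w : Additive V | ∃ x y, w = m x y} := by
        intro g hg
        rw [hM] at hg
        induction hg using Subgroup.closure_induction with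
        | mem y hy =>
          obtain ⟨a, ha, b, hb, rfl⟩ := hy
          intro hg
          exact AddSubgroup.subset_closure ⟨Additive.ofMul ⟨a, ha⟩, Additive.ofMul ⟨b, hb⟩, rfl⟩
        | one => intro hg; exact AddSubgroup.zero_mem _
        | mul a b ha hb h3 h4 =>
          intro hg
          rw [← hM] at ha hb
          exact AddSubgroup.add_mem _ (h3 (hMV ha)) (h4 (hMV hb))
        | inv a ha h3 =>
          intro hg
          rw [← hM] at ha
          exact AddSubgroup.neg_mem _ (h3 (hMV ha))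
      exact key _ hx (Additive.toMul x).2
    have hgen : AddSubgroup.closure {w : Additive V | ∃ x y, w = m x y} = ⊤ := by
      rw [eq_top_iff]; intro x _; exact hcl x
    have h2 : ∀ x : Additive V, x + x = 0 := by
      intro x
      induction hcl x using AddSubgroup.closure_induction with
      | mem x hx => obtain ⟨a, b, rfl⟩ := hx; exact h2m a b
      | zero => simp
      | add a b _ _ h3 h4 =>
        have : a + b + (a + b) = (a + a) + (b + b) := by abel
        rw [this, h3, h4, add_zero]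
      | neg a _ h3 =>
        have : -a + -a = -(a + a) := by abel
        rw [this, h3, neg_zero]
    have h0 : ∀ x, m x x = 0 := by
      intro x
      have := hself x
      rwa [h2, add_zero] at this
    have : Finite (Additive V) := inferInstanceAs (Finite V)
    have htriv := alt_trivial m h2 hadd hc h0 (hA_of_J m hadd hc h0 hJ) hgen
    apply hne
    rw [eq_bot_iff]
    intro v hv
    rw [Subgroup.mem_bot]
    have := htriv (Additive.ofMul ⟨v, hv⟩)
    exact congrArg (fun x : Additive V => ((Additive.toMul x : V) : Perm Q)) this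
  -- so the left translations centralise `V`
  have hcen : ∀ a ∈ V, ∀ b ∈ V, L (a e) * b = b * L (a e) := by
    intro a ha b hb
    have h1 : mm L e a b ∈ M := by
      rw [hM]; exact Subgroup.subset_closure ⟨a, ha, b, hb, rfl⟩
    rw [hMbot, Subgroup.mem_bot] at h1
    unfold mm at h1
    rw [mul_inv_eq_one, mul_inv_eq_iff_eq_mul] at h1
    exact h1
  have hL : ∀ x, ∃ a ∈ V, L x = a := by
    intro x
    obtain ⟨a, ha, rfl⟩ := h.trans_of_normal hN hne e x
    refine ⟨a, ha, ?_⟩
    ext q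
    obtain ⟨w, hw, rfl⟩ := h.trans_of_normal hN hne e q
    calc L (a e) (w e) = (L (a e) * w) e := rfl
      _ = (w * L (a e)) e := by rw [hcen a ha w hw]
      _ = w (L (a e) e) := rfl
      _ = (w * a) e := by rw [h.Le]; rfl
      _ = (a * w) e := by rw [hab w hw a ha]
      _ = a (w e) := rfl
  intro x y z
  have h1 : L (L x y) = L x * L y := by
    obtain ⟨a, ha, hLa⟩ := hL x
    obtain ⟨b, hb, hLb⟩ := hL y
    obtain ⟨c, hcV, hLc⟩ := hL (L x y)
    rw [hLc, hLa, hLb]
    apply h.reg hN hne hab hcV (V.mul_mem ha hb)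
    rw [← hLc, ← hLa, ← hLb, h.Le, Perm.mul_apply, h.Le]
  rw [h1]; rfl

end ALoop
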