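import Pool.Agent.H17.E2.NoTwo
import Pool.Agent.H45.EE.Chain2
import Pool.Agent.H19.E2.Pow

/-!
# Exponent two: `L_x²` has odd order (helper6, note 6798)
-/

set_option autoImplicit false

namespace ALoop

open Equiv

variable {Q : Type*} {G : Subgroup (Perm Q)} {L : Q → Perm Q} {e : Q}

/-- `[L_x², L_y²]² = 1` -/
theorem AE.comm_sqsq (h : AE G L e) (x y : Q) :
    ((L x * L x) * (L y * L y) * (L x * L x)⁻¹ * (L y * L y)⁻¹) ^ 2 = 1 := by
  have hu := h.uu_eq2 e x y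
  rw [h.tt_e, h.tt_e] at hu
  have hc := h.chain_comm e x y 1 0
  rw [h.tt_e] at hc
  have hsq := h.uu_sq e x y
  have hy' := h.conj_L (G.mul_mem (h.memL x) (h.memL x)) y
  rw [show (L x * L x) e = e by rw [Perm.mul_apply, h.Le, h.sq], h.tt_e] at hy'
  have hcs := h.comm_sq y ((L x * L x) y)
  rw [← hy'] at hcs
  obtain ⟨u, huu⟩ : ∃ u, u = uu L e x y := ⟨_, rfl⟩
  rw [← huu] at hu hc hsq
  obtain ⟨C, hC⟩ : ∃ C, C = L x := ⟨_, rfl⟩
  obtain ⟨B, hB⟩ : ∃ B, B = L y := ⟨_, rfl⟩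
  rw [← hC] at hu hc hcs ⊢
  rw [← hB] at hu hcs ⊢
  have hui : u⁻¹ = u := inv_eq_of_mul_eq_one_left hsq
  obtain ⟨v, hv⟩ : ∃ v, v = C * C * B * (C * C)⁻¹ * B⁻¹ := ⟨_, rfl⟩
  have hv1 : v = (C * u * C⁻¹) * u := by
    rw [hv, hu]; group
  have hc' : (C * u * C⁻¹) * u = u * (C * u * C⁻¹) := by
    have := hc.eq
    simpa using this
  have hvv : v * v = 1 := by
    calc v * v = (C * u * C⁻¹) * (u * (C * u * C⁻¹)) * u := by rw [hv1]; group
      _ = (C * u * C⁻¹) * ((C * u * C⁻¹) * u) * u := by rw [← hc']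
      _ = C * (u * u) * C⁻¹ * (u * u) := by group
      _ = 1 := by rw [hsq]; group
  have hvi : v⁻¹ = v := inv_eq_of_mul_eq_one_left hvv
  have h1 : (B * v * B⁻¹ * v) * (B * v * B⁻¹ * v) = 1 := by
    have e1 : B * v * B⁻¹ * v⁻¹ = B * (C * C * B * (C * C)⁻¹) * B⁻¹ * (C * C * B * (C * C)⁻¹)⁻¹ := by
      rw [hv]; group
    rw [← e1, hvi] at hcs
    exact hcs
  have h2 : (C * C) * (B * B) * (C * C)⁻¹ * (B * B)⁻¹ = v * (B * v * B⁻¹) := by
    rw [hv]; group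
  rw [h2, pow_two]
  calc v * (B * v * B⁻¹) * (v * (B * v * B⁻¹)) = v * ((B * v * B⁻¹ * v) * (B * v * B⁻¹ * v)) * v⁻¹ := by
        group
    _ = 1 := by rw [h1]; group

/-- **`L_x²` has odd order** -/
theorem AE.lam_odd [Finite Q] (h : AE G L e) (x : Q) : ∃ m : ℕ, Odd m ∧ (L x * L x) ^ m = 1 := by
  classical
  obtain ⟨H, hH⟩ : ∃ H : Subgroup (Perm Q), H = G ⊓ MulAction.stabilizer (Perm Q) e := ⟨_, rfl⟩
  have hmem : ∀ y, L y * L y ∈ H := by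
    intro y
    rw [hH]
    refine Subgroup.mem_inf.2 ⟨G.mul_mem (h.memL _) (h.memL _), ?_⟩
    rw [MulAction.mem_stabilizer_iff, Perm.smul_def, Perm.mul_apply, h.Le, h.sq]
  have hHm : ∀ g ∈ H, g ∈ G ∧ g e = e := by
    intro g hg
    rw [hH] at hg
    exact ⟨hg.1, by simpa [MulAction.mem_stabilizer_iff] using hg.2⟩
  by_cases ho : Odd (orderOf (⟨L x * L x, hmem x⟩ : H))
  · refine ⟨_, ho, ?_⟩
    have := pow_orderOf_eq_one (⟨L x * L x, hmem x⟩ : H)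
    exact congrArg Subtype.val this
  exfalso
  obtain ⟨N, hN, hN2, hNb⟩ := Pool.Agent.H19.E2.exists_normal_two (M := H)
    {a | ∃ y, (a : Perm Q) = L y * L y}
    (by
      rintro a ⟨y, hy⟩ g
      refine ⟨(g : Perm Q) y, ?_⟩
      have hg := hHm _ g.2
      have h1 := h.equi _ hg.1 hg.2 y
      rw [← h1]
      have : ((g * a * g⁻¹ : H) : Perm Q) = (g : Perm Q) * (a : Perm Q) * (g : Perm Q)⁻¹ := rfl
      rw [this, hy]; group)
    (by
      rintro a ⟨y, hy⟩ b ⟨z, hz⟩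
      apply Subtype.ext
      have : (((a * b * a⁻¹ * b⁻¹) ^ 2 : H) : Perm Q) =
        ((a : Perm Q) * (b : Perm Q) * (a : Perm Q)⁻¹ * (b : Perm Q)⁻¹) ^ 2 := rfl
      rw [this, hy, hz, h.comm_sqsq]; rfl)
    ⟨L x * L x, hmem x⟩ ⟨x, rfl⟩ ho
  apply hNb
  have hmap : N.map H.subtype = ⊥ := by
    apply h.no_two_H
    · rintro _ ⟨n, _, rfl⟩
      exact (hHm _ n.2).1
    · rintro _ ⟨n, _, rfl⟩
      exact (hHm _ n.2).2
    · rintro g hg hge _ ⟨n, hn, rfl⟩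
      have hgH : g ∈ H := by
        rw [hH]
        refine Subgroup.mem_inf.2 ⟨hg, ?_⟩
        rw [MulAction.mem_stabilizer_iff, Perm.smul_def, hge]
      exact ⟨⟨g, hgH⟩ * n * ⟨g, hgH⟩⁻¹, hN.conj_mem n hn ⟨g, hgH⟩, rfl⟩
    · exact hN2.map H.subtype
  rwa [Subgroup.map_eq_bot_iff_of_injective _ H.subtype_injective] at hmap

end ALoop
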