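import Pool.Agent.H17.E2.AsmA
import Pool.Agent.H17.E2.LamOdd
import Pool.Agent.H49.E2.EndB

/-!
# A finite simple commutative automorphic loop of exponent two is associative
-/

set_option autoImplicit false

namespace ALoop

open Equiv

variable {Q : Type*} {G : Subgroup (Perm Q)} {L : Q → Perm Q} {e : Q}

/-- `t(p,q)²` has odd order -/
theorem AE.tt_odd [Finite Q] (h : AE G L e) (p q : Q) :
    ∃ n : ℕ, Odd n ∧ (tt L p q * tt L p q) ^ n = 1 := by
  obtain ⟨n, hn, h1⟩ := h.lam_odd ((L p)⁻¹ q)
  refine ⟨n, hn, ?_⟩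
  have h2 : tt L p q * tt L p q =
      L p * (L ((L p)⁻¹ q) * L ((L p)⁻¹ q)) * (L p)⁻¹ := by
    unfold tt; group
  rw [h2, conj_pow, h1]
  group

/-- **exponent two**: a finite simple commutative automorphic loop of exponent two is associative -/
theorem AE.assoc [Finite Q] (h : AE G L e) : Assoc L := by
  apply h.assoc_of h.lam_odd
  intro a b r m β p hm hT hβ hβr hinv hp hβp
  exact h.end_inv a b r (fun i j => (h.chain_comm a b r i j).eq)
    (fun n hn => h.chain_odd a b r hn) h.tt_odd hm hT hβ hβr hinv hp hβp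

end ALoop
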