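import Pool.Agent.H17.E2.Ter
import Pool.Agent.H71.TP.Ter

/-!
# Exponent two: order, maximality of the point stabiliser, no normal `2`-subgroup of it
-/

set_option autoImplicit false

namespace ALoop

open Equiv

variable {Q : Type*} {G : Subgroup (Perm Q)} {L : Q → Perm Q} {e : Q}

theorem AE.ts (h : AE G L e) : TS (fun p q r : Q => tt L p q r) where
  c12 := fun a b c => by rw [h.tt_symm]
  c23 := fun a b c => h.tt_rot a b c
  id := fun a b => by rw [h.tt_self]; rfl
  inj := fun a b c d hcd => (tt L a b).injective hcd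
  surj := fun a b c => ⟨(tt L a b)⁻¹ c, AE.ap_inv _ _⟩
  dist := fun a b r s t => by
    have h1 := h.tt_conj (h.mem_tt a b) r s
    rw [← h1]
    change tt L a b (tt L r s t) = tt L a b (tt L r s ((tt L a b)⁻¹ (tt L a b t)))
    rw [AE.inv_ap]

/-- the order is a power of two -/
theorem AE.card_two_pow [Finite Q] (h : AE G L e) : ∃ k, Nat.card Q = 2 ^ k := by
  have : Nonempty Q := ⟨e⟩
  exact h.ts.card

/-- the stabiliser of `e` is a maximal subgroup -/
theorem AE.max_H (h : AE G L e) {M : Subgroup (Perm Q)} (hM : M ≤ G)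
    (hH : ∀ g ∈ G, g e = e → g ∈ M) {x : Q} (hx : x ≠ e) (hmx : ∃ g ∈ M, g e = x) : G ≤ M := by
  have hLM : ∀ a, (∃ g ∈ M, g e = a) → L a ∈ M := by
    rintro a ⟨g, hg, rfl⟩
    have h1 : g⁻¹ * L (g e) ∈ M := by
      apply hH _ (G.mul_mem (G.inv_mem (hM hg)) (h.memL _))
      rw [Perm.mul_apply, h.Le, AE.inv_ap]
    have h2 : L (g e) = g * (g⁻¹ * L (g e)) := by group
    rw [h2]; exact M.mul_mem hg h1
  have heq : Equivalence (fun a b : Q => (L a)⁻¹ * L b ∈ M) := by
    refine ⟨fun a => by rw [inv_mul_cancel]; exact M.one_mem, ?_, ?_⟩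
    · intro a b hab
      have := M.inv_mem hab
      rwa [mul_inv_rev, inv_inv] at this
    · intro a b c hab hbc
      have := M.mul_mem hab hbc
      have e1 : (L a)⁻¹ * L b * ((L b)⁻¹ * L c) = (L a)⁻¹ * L c := by group
      rwa [e1] at this
  have hk : ∀ g ∈ G, ∀ a, (L a)⁻¹ * g⁻¹ * L (g a) ∈ M := by
    intro g hg a
    apply hH _ (G.mul_mem (G.mul_mem (G.inv_mem (h.memL a)) (G.inv_mem hg)) (h.memL _))
    rw [Perm.mul_apply, Perm.mul_apply, h.Le, AE.inv_ap, Perm.inv_eq_iff_eq, h.Le]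
  rcases h.prim _ heq (by
    intro g hg a b hab
    have h1 := M.mul_mem (M.mul_mem (M.inv_mem (hk g hg a)) hab) (hk g hg b)
    have e1 : ((L a)⁻¹ * g⁻¹ * L (g a))⁻¹ * ((L a)⁻¹ * L b) * ((L b)⁻¹ * g⁻¹ * L (g b)) =
        (L (g a))⁻¹ * L (g b) := by group
    rwa [e1] at h1) with h1 | h1
  · exfalso
    apply hx
    refine (h1 e x ?_).symm
    rw [h.Le1, inv_one, one_mul]
    exact hLM x hmx
  · rw [h.gen, Subgroup.closure_le]
    rintro _ ⟨b, rfl⟩
    have := h1 e b
    rw [h.Le1, inv_one, one_mul] at this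
    exact this

/-- a nontrivial normal subgroup of `G` fixes no point -/
theorem AE.normal_fix (h : AE G L e) {N : Subgroup (Perm Q)} (hN : Nm G N)
    (hfix : ∀ n ∈ N, n e = e) : N = ⊥ := by
  have heq : Equivalence (fun a b : Q => ∃ n ∈ N, n a = b) := by
    refine ⟨fun a => ⟨1, N.one_mem, rfl⟩, ?_, ?_⟩
    · rintro a b ⟨n, hn, rfl⟩
      exact ⟨n⁻¹, N.inv_mem hn, AE.inv_ap n a⟩
    · rintro a b c ⟨n, hn, rfl⟩ ⟨n', hn', rfl⟩
      exact ⟨n' * n, N.mul_mem hn' hn, rfl⟩
  rcases h.prim _ heq (by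
    rintro g hg a b ⟨n, hn, rfl⟩
    refine ⟨g * n * g⁻¹, hN g hg n hn, ?_⟩
    rw [Perm.mul_apply, Perm.mul_apply, AE.inv_ap]) with h1 | h1
  · rw [eq_bot_iff]
    intro n hn
    rw [Subgroup.mem_bot]
    ext a
    exact (h1 a (n a) ⟨n, hn, rfl⟩).symm
  · rw [eq_bot_iff]
    intro n _
    rw [Subgroup.mem_bot]
    ext a
    obtain ⟨m1, hm1, h2⟩ := h1 e a
    obtain ⟨m2, hm2, h3⟩ := h1 e (n a)
    rw [← h3, hfix m2 hm2, ← h2, hfix m1 hm1]; rfl

/-- the stabiliser of `e` has no nontrivial normal `2`-subgroup -/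
theorem AE.no_two_H [Finite Q] (h : AE G L e) {N : Subgroup (Perm Q)} (hNG : N ≤ G)
    (hNe : ∀ n ∈ N, n e = e) (hN : ∀ g ∈ G, g e = e → ∀ n ∈ N, g * n * g⁻¹ ∈ N)
    (hp : IsPGroup 2 N) : N = ⊥ := by
  classical
  have : Fact (Nat.Prime 2) := ⟨Nat.prime_two⟩
  obtain ⟨k, hk⟩ := h.card_two_pow
  by_cases hk0 : k = 0
  · have : Subsingleton Q := by
      rw [hk0, pow_zero] at hk
      exact (Nat.card_eq_one_iff_unique.1 hk).1
    rw [eq_bot_iff]
    intro n _
    rw [Subgroup.mem_bot]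
    ext a
    exact Subsingleton.elim _ _
  -- a second fixed point
  have : Fintype Q := Fintype.ofFinite Q
  have hdvd : 2 ∣ Nat.card Q := by
    rw [hk]; exact dvd_pow_self 2 hk0
  have hfix : e ∈ MulAction.fixedPoints N Q := by
    intro n
    exact hNe n n.2
  obtain ⟨x, hx, hxe⟩ := hp.exists_fixed_point_of_prime_dvd_card_of_fixed_point Q hdvd hfix
  have hNx : ∀ n ∈ N, n x = x := by
    intro n hn
    exact hx ⟨n, hn⟩
  -- the normaliser
  have hmax := h.max_H (M := G ⊓ Subgroup.normalizer (N : Set (Perm Q))) inf_le_left (by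
    intro g hg hge
    refine Subgroup.mem_inf.2 ⟨hg, ?_⟩
    rw [Subgroup.mem_normalizer_iff]
    intro n
    constructor
    · exact hN g hg hge n
    · intro hn
      have h1 : g⁻¹ e = e := by rw [Perm.inv_eq_iff_eq, hge]
      have h2 := hN g⁻¹ (G.inv_mem hg) h1 _ hn
      have e1 : g⁻¹ * (g * n * g⁻¹) * g⁻¹⁻¹ = n := by group
      rwa [e1] at h2) (x := x) (Ne.symm hxe) ⟨L x, Subgroup.mem_inf.2 ⟨h.memL x, by
        rw [Subgroup.mem_normalizer_iff]
        have hcomm : ∀ n ∈ N, n * L x = L x * n := by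
          intro n hn
          have := h.tt_cent (hNG hn) (hNe n hn) (hNx n hn)
          rwa [h.tt_e] at this
        intro n
        constructor
        · intro hn
          rw [← hcomm n hn, mul_assoc, mul_inv_cancel, mul_one]; exact hn
        · intro hn
          have h1 := hcomm _ hn
          obtain ⟨m, hm⟩ : ∃ m, m = L x * n * (L x)⁻¹ := ⟨_, rfl⟩
          rw [← hm] at h1 hn
          have h2 : n = m := by
            have h3 : n = (L x)⁻¹ * m * L x := by rw [hm]; group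
            rw [h3, mul_assoc, h1, ← mul_assoc, inv_mul_cancel, one_mul]
          rw [h2]; exact hn⟩, h.Le x⟩
  apply h.normal_fix _ hNe
  intro g hg n hn
  exact (Subgroup.mem_normalizer_iff.1 (Subgroup.mem_inf.1 (hmax hg)).2 n).1 hn

end ALoop
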