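import Pool.Agent.H17.E2.Inv2
import Pool.Agent.H17.E2.NoTwo

/-!
# Exponent two: assembly from `lam odd` and the END step
-/

set_option autoImplicit false

namespace ALoop

open Equiv

variable {Q : Type*} {G : Subgroup (Perm Q)} {L : Q → Perm Q} {e : Q}

/-- an element of odd prime order of a group acting on `2^k` points has a fixed point -/
theorem fix_of_card [Finite Q] {k : ℕ} (hk : Nat.card Q = 2 ^ k) {p : ℕ} (hp : p.Prime)
    (hp2 : p ≠ 2) {β : Perm Q} (hβ : β ^ p = 1) : ∃ r, β r = r := by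
  classical
  have : Fact p.Prime := ⟨hp⟩
  have hpg : IsPGroup p (Subgroup.zpowers β) := by
    rintro ⟨g, n, rfl⟩
    refine ⟨1, ?_⟩
    apply Subtype.ext
    change (β ^ n) ^ p ^ 1 = 1
    rw [pow_one, ← zpow_natCast, zpow_comm, zpow_natCast, hβ, one_zpow]
  have h1 := hpg.card_modEq_card_fixedPoints Q
  by_contra hne
  push Not at hne
  have h2 : Nat.card (MulAction.fixedPoints (Subgroup.zpowers β) Q) = 0 := by
    rw [Nat.card_eq_zero]
    left
    refine ⟨fun x => ?_⟩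
    obtain ⟨x, hx⟩ := x
    exact hne x (hx ⟨β, Subgroup.mem_zpowers β⟩)
  rw [h2, hk] at h1
  have h3 : p ∣ 2 ^ k := (Nat.modEq_zero_iff_dvd).1 h1
  have h4 : p ∣ 2 := hp.dvd_of_dvd_pow h3
  exact hp2 ((Nat.prime_dvd_prime_iff_eq hp Nat.prime_two).1 h4)

/-- odd powers of `L_x` map `e` to `x` -/
theorem AE.odd_pow (h : AE G L e) (x : Q) {m : ℕ} (hm : Odd m) : ((L x) ^ m) e = x := by
  obtain ⟨k, rfl⟩ := hm
  have h2 : ∀ j : ℕ, ((L x) ^ (2 * j)) e = e := by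
    intro j
    induction j with
    | zero => rfl
    | succ j ih =>
      rw [Nat.mul_succ, pow_add, Perm.mul_apply]
      have : ((L x) ^ 2) e = e := by
        rw [pow_two, Perm.mul_apply, h.Le, h.sq]
      rw [this, ih]
  rw [add_comm, pow_add, pow_one, Perm.mul_apply, h2, h.Le]

theorem AE.assoc_of [Finite Q] (h : AE G L e)
    (hlam : ∀ x, ∃ m : ℕ, Odd m ∧ (L x * L x) ^ m = 1)
    (hend : ∀ (a b r : Q) (m : ℕ) (β : Perm Q) (p : ℕ), Odd m → (tt L a b * tt L a b) ^ m = 1 →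
      β ∈ G → β r = r → (tt L a b) ^ m * β * ((tt L a b) ^ m)⁻¹ = β⁻¹ → Odd p → β ^ p = 1 →
      β = 1) : Assoc L := by
  classical
  by_cases hsub : ∀ x : Q, x = e
  · intro x y z
    rw [hsub (L (L x y) z), hsub (L x (L y z))]
  push Not at hsub
  obtain ⟨x, hx⟩ := hsub
  obtain ⟨k, hk⟩ := h.card_two_pow
  obtain ⟨m, hm, hxm⟩ := hlam x
  have htt : ((L x) ^ m) * ((L x) ^ m) = 1 := by
    rw [← (Commute.refl (L x)).mul_pow, hxm]
  obtain ⟨D, hD⟩ : ∃ D : Set (Perm Q), D = {d | ∃ g ∈ G, d = g * (L x) ^ m * g⁻¹} := ⟨_, rfl⟩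
  have hinvol : ∀ d ∈ D, d * d = 1 := by
    rw [hD]; rintro _ ⟨g, _, rfl⟩
    calc g * (L x) ^ m * g⁻¹ * (g * (L x) ^ m * g⁻¹) = g * ((L x) ^ m * (L x) ^ m) * g⁻¹ := by group
      _ = 1 := by rw [htt]; group
  have hDG : ∀ d ∈ D, d ∈ G := by
    rw [hD]; rintro _ ⟨g, hg, rfl⟩
    exact G.mul_mem (G.mul_mem hg (G.pow_mem (h.memL x) m)) (G.inv_mem hg)
  refine h.of_invols (D := D) (z := (L x) ^ m) hDG ?_ hinvol ?_ ?_ ?_
  · rw [hD]; rintro g hg _ ⟨k, hk, rfl⟩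
    exact ⟨g * k, G.mul_mem hg hk, by group⟩
  · intro a ha b hb
    obtain ⟨k', m', hm', hk'⟩ := odd_part (a * b)
    refine ⟨k', ?_⟩
    by_contra hne
    have hab : (a * b) ^ 2 ^ k' ∈ G := G.pow_mem (G.mul_mem (hDG a ha) (hDG b hb)) _
    have hinv1 : a * (a * b) ^ 2 ^ k' * a⁻¹ = ((a * b) ^ 2 ^ k')⁻¹ := by
      rw [← conj_pow, ← inv_pow]
      congr 1
      have ha1 : a⁻¹ = a := inv_eq_of_mul_eq_one_left (hinvol a ha)
      have hb1 : b⁻¹ = b := inv_eq_of_mul_eq_one_left (hinvol b hb)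
      rw [mul_inv_rev, ha1, hb1, ← mul_assoc, hinvol a ha, one_mul]
    obtain ⟨β0, hβ0⟩ : ∃ β0, β0 = (a * b) ^ 2 ^ k' := ⟨_, rfl⟩
    rw [← hβ0] at hne hab hinv1 hk'
    -- a power of prime order
    have hord : orderOf β0 ≠ 1 := fun h1 => hne (orderOf_eq_one_iff.1 h1)
    obtain ⟨p, hp, hpd⟩ := Nat.exists_prime_and_dvd hord
    have hpodd : Odd p := by
      have h1 : p ∣ m' := hpd.trans (orderOf_dvd_of_pow_eq_one hk')
      exact hm'.of_dvd_nat h1
    obtain ⟨c, hc⟩ := hpd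
    have hβp : (β0 ^ c) ^ p = 1 := by
      rw [← pow_mul, mul_comm c p, ← hc, pow_orderOf_eq_one]
    have hβ1 : β0 ^ c ≠ 1 := by
      intro h1
      have h2 := orderOf_dvd_of_pow_eq_one h1
      rw [hc] at h2
      have hc0 : c ≠ 0 := by
        rintro rfl
        rw [mul_zero] at hc
        exact absurd hc (orderOf_pos β0).ne'
      have h3 := Nat.le_of_dvd (Nat.pos_of_ne_zero hc0) h2
      have h4 := hp.two_le
      have : 2 * c ≤ p * c := Nat.mul_le_mul_right c h4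
      omega
    have hinv2 : a * β0 ^ c * a⁻¹ = (β0 ^ c)⁻¹ := by
      rw [← conj_pow, hinv1, inv_pow]
    obtain ⟨r, hr⟩ := fix_of_card hk hp (by rintro rfl; exact absurd hpodd (by decide)) hβp
    have ha' := ha
    rw [hD] at ha'
    obtain ⟨g, hg, rfl⟩ := ha'
    have hT : g * (L x) ^ m * g⁻¹ = (tt L (g e) (g x)) ^ m := by
      rw [← h.conj_L hg, conj_pow]
    have hT2 : (tt L (g e) (g x) * tt L (g e) (g x)) ^ m = 1 := by
      rw [← h.conj_L hg]
      have e1 : g * L x * g⁻¹ * (g * L x * g⁻¹) = g * (L x * L x) * g⁻¹ := by group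
      rw [e1, conj_pow, hxm]; group
    rw [hT] at hinv2
    exact hβ1 (hend (g e) (g x) r m (β0 ^ c) p hm hT2 (G.pow_mem hab c) hr hinv2 hpodd hβp)
  · rw [hD]; exact ⟨1, G.one_mem, by group⟩
  · intro h1
    apply hx
    have := h.odd_pow x hm
    rw [h1] at this
    exact this.symm

end ALoop
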