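import Pool.Agent.H17.E2.Ter

/-!
# Exponent two: no `t(p,q)` inverts a nontrivial element of odd order (helper65, note 6818)
-/

set_option autoImplicit false

namespace ALoop

open Equiv

variable {Q : Type*} {G : Subgroup (Perm Q)} {L : Q → Perm Q} {e : Q}

/-- a power of `s` fixes a point fixed by `s^n`, `n` odd order trick -/
theorem AE.inv_fix (h : AE G L e) {g : Perm Q} (hg : g ∈ G) {p q : Q}
    (hinv : tt L p q * g * (tt L p q)⁻¹ = g⁻¹) (hq : g q = q) {m : ℕ} (hm : Odd m)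
    (hgm : g ^ m = 1) : g = 1 := by
  have h1 : tt L p q * g = g⁻¹ * tt L p q := by rw [← hinv]; group
  have h2 : g * (tt L p q) = tt L p q * g⁻¹ := by
    have h3 : tt L p q * g⁻¹ * (tt L p q)⁻¹ = g := by
      have h3 := congrArg (fun x => x⁻¹) hinv
      simp only [mul_inv_rev, inv_inv] at h3
      rw [← mul_assoc] at h3
      exact h3
    calc g * tt L p q = tt L p q * g⁻¹ * (tt L p q)⁻¹ * tt L p q := by rw [h3]
      _ = _ := by group
  have hp : g p = p := by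
    have h3 : (g * tt L p q) q = (tt L p q * g⁻¹) q := by rw [h2]
    have h4 : g⁻¹ q = q := by rw [Perm.inv_eq_iff_eq, hq]
    rw [Perm.mul_apply, Perm.mul_apply, h4, h.tt_right] at h3
    exact h3
  have h5 := h.tt_cent hg hp hq
  have h6 : g = g⁻¹ := by
    rw [← hinv, ← h5]; group
  have h7 : g * g = 1 := by
    calc g * g = g * g⁻¹ := by rw [← h6]
      _ = 1 := mul_inv_cancel g
  obtain ⟨k, rfl⟩ := hm
  rw [pow_add, pow_mul, pow_one, pow_two, h7, one_pow, one_mul] at hgm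
  exact hgm

theorem AE.no_inv (h : AE G L e) {s : Perm Q} (hs : s ∈ G) {p q : Q}
    (hinv : tt L p q * s * (tt L p q)⁻¹ = s⁻¹) {m : ℕ} (hm : Odd m) (hsm : s ^ m = 1) :
    s = 1 := by
  obtain ⟨P, hP⟩ : ∃ P : ℤ → Q, P = fun k => (s ^ k) p := ⟨_, rfl⟩
  obtain ⟨R, hR⟩ : ∃ R : ℤ → Q, R = fun k => (s ^ k) q := ⟨_, rfl⟩
  obtain ⟨T, hT⟩ : ∃ T : ℤ → Perm Q, T = fun k => tt L (P k) (R k) := ⟨_, rfl⟩
  have hsP : ∀ a b : ℤ, (s ^ a) (P b) = P (a + b) := by
    intro a b; rw [hP]; simp only; rw [zpow_add]; rfl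
  have hsR : ∀ a b : ℤ, (s ^ a) (R b) = R (a + b) := by
    intro a b; rw [hR]; simp only; rw [zpow_add]; rfl
  have hsG : ∀ a : ℤ, s ^ a ∈ G := fun a => G.zpow_mem hs a
  have hT0 : T 0 = tt L p q := by rw [hT, hP, hR]; simp
  have hinvk : ∀ k : ℤ, tt L p q * s ^ k * (tt L p q)⁻¹ = s ^ (-k) := by
    intro k
    rw [conj_zpow.symm, hinv, inv_zpow']
  have hTk : ∀ k : ℤ, T k = s ^ (2 * k) * tt L p q := by
    intro k
    have h1 := h.tt_conj (hsG k) p q
    have h2 : T k = s ^ k * tt L p q * (s ^ k)⁻¹ := by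
      rw [h1, hT, hP, hR]
    have h3 := hinvk (-k)
    rw [neg_neg] at h3
    rw [h2, ← zpow_neg]
    have h4 : tt L p q * s ^ (-k) = s ^ k * tt L p q := by rw [← h3]; group
    rw [mul_assoc, h4, ← mul_assoc, ← zpow_add]
    congr 2; ring
  have hTG : ∀ k, T k ∈ G := by intro k; rw [hT]; exact h.mem_tt _ _
  have hcs : ∀ k : ℤ, tt L p q * s ^ k = s ^ (-k) * tt L p q := by
    intro k; rw [← hinvk k]; group
  have hTP : ∀ k c : ℤ, T k (P c) = R (2 * k - c) := by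
    intro k c
    have h1 : P c = (s ^ c) p := by rw [hP]
    have h2 : R (2 * k - c) = (s ^ (2 * k) * s ^ (-c)) q := by rw [hR, ← zpow_add]; rfl
    rw [hTk, h1, h2]
    have h3 : (s ^ (2 * k) * tt L p q) ((s ^ c) p) = (s ^ (2 * k) * (tt L p q * s ^ c)) p := rfl
    rw [h3, hcs, Perm.mul_apply, Perm.mul_apply, h.tt_left]; rfl
  have hTR : ∀ k c : ℤ, T k (R c) = P (2 * k - c) := by
    intro k c
    have h1 : R c = (s ^ c) q := by rw [hR]
    have h2 : P (2 * k - c) = (s ^ (2 * k) * s ^ (-c)) p := by rw [hP, ← zpow_add]; rfl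
    rw [hTk, h1, h2]
    have h3 : (s ^ (2 * k) * tt L p q) ((s ^ c) q) = (s ^ (2 * k) * (tt L p q * s ^ c)) q := rfl
    rw [h3, hcs, Perm.mul_apply, Perm.mul_apply, h.tt_right]; rfl
  have hTt : ∀ k, T k = tt L (P k) (R k) := by intro k; rw [hT]
  obtain ⟨U, hU⟩ : ∃ U : ℤ → ℤ → Perm Q, U = fun i d => uu L (P i) (R i) (P (i + d)) := ⟨_, rfl⟩
  have hUG : ∀ i d, U i d ∈ G := by intro i d; rw [hU]; exact h.mem_uu _ _ _
  have hUsq : ∀ i d, U i d * U i d = 1 := by intro i d; rw [hU]; exact h.uu_sq _ _ _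
  have hTt' : ∀ a b c : Q, tt L a b c = tt L b a c := fun a b c => by rw [h.tt_symm]
  -- F1
  have F1 : ∀ i d : ℤ, tt L (P (i + d)) (R (i - d)) = U i d * T i := by
    intro i d
    have h1 := h.rs (P i) (R i) (P (i + d))
    rw [← hTt, hTP, show 2 * i - (i + d) = i - d by ring] at h1
    rw [h1, hU]
  have F2 : ∀ i d : ℤ, U i d (R (i - d)) = R (i - d) := by
    intro i d
    have h1 := h.uu_s (P i) (R i) (P (i + d))
    rw [← hTt, hTP, show 2 * i - (i + d) = i - d by ring] at h1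
    rw [hU]; exact h1
  have F3 : ∀ i d : ℤ, U i d (P (i + d)) = P (i + d) := by
    intro i d
    have h1 : (U i d * T i) (R (i - d)) = P (i + d) := by rw [← F1, h.tt_right]
    rw [Perm.mul_apply, hTR, show 2 * i - (i - d) = i + d by ring] at h1
    exact h1
  have F4 : ∀ i d : ℤ, U i d * T i = T i * U i d := by
    intro i d
    have h1 := h.tt_cent (hUG i d) (F3 i d) (F2 i d)
    rw [F1] at h1
    exact mul_left_cancel (a := U i d) (by rw [h1, mul_assoc])
  have F5 : ∀ i d : ℤ, U i d (P (i - d)) = P (i + 3 * d) := by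
    intro i d
    have h1 : (U i d * T i) (R (i + d)) = T (i + d) (R (i - d)) := by
      rw [← F1, h.tt_rot, ← hTt]
    rw [Perm.mul_apply, hTR, hTR, show 2 * i - (i + d) = i - d by ring,
      show 2 * (i + d) - (i - d) = i + 3 * d by ring] at h1
    exact h1
  have F6 : ∀ i d : ℤ, U i d (R (i + d)) = R (i - 3 * d) := by
    intro i d
    have h1 : (U i d * T i) (P (i - d)) = T (i - d) (P (i + d)) := by
      rw [← F1, hTt' (P (i + d)), h.tt_rot, hTt' (R (i - d)), ← hTt]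
    rw [Perm.mul_apply, hTP, hTP, show 2 * i - (i - d) = i + d by ring,
      show 2 * (i - d) - (i + d) = i - 3 * d by ring] at h1
    exact h1
  -- (2)
  have hshift : ∀ k i d : ℤ, s ^ k * U i d * (s ^ k)⁻¹ = U (i + k) d := by
    intro k i d
    have h1 := h.uu_conj (hsG k) (P i) (R i) (P (i + d))
    rw [hsP, hsR, hsP] at h1
    rw [hU]
    simp only
    rw [h1, add_comm k i, show k + (i + d) = i + k + d by ring]
  have h2a : ∀ j : ℤ, U (-j) (2 * j) (P (-j)) = P (-j) := by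
    intro j
    have hVT : U 0 j * T 0 = T 0 * U 0 j := F4 0 j
    have hVPj : U 0 j (P j) = P j := by have := F3 0 j; rwa [zero_add] at this
    have hVRj : U 0 j (R j) = R (-3 * j) := by
      have := F6 0 j
      rwa [zero_add, zero_sub, ← neg_mul] at this
    have hVPm : U 0 j (P (-j)) = P (3 * j) := by
      have := F5 0 j
      rwa [zero_add, zero_sub] at this
    have h1 : U 0 j * T j * (U 0 j)⁻¹ = U (-j) (2 * j) * T (-j) := by
      rw [hTt j, h.tt_conj (hUG 0 j), hVPj, hVRj]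
      have h3 := F1 (-j) (2 * j)
      rw [show -j + 2 * j = j by ring, show -j - 2 * j = -3 * j by ring] at h3
      exact h3
    have hT0' : ∀ k : ℤ, T k = s ^ (2 * k) * T 0 := by intro k; rw [hTk, hT0]
    have h2 : U (-j) (2 * j) = U 0 j * s ^ (2 * j) * (U 0 j)⁻¹ * s ^ (2 * j) := by
      have h3 : U 0 j * T j * (U 0 j)⁻¹ = U 0 j * s ^ (2 * j) * (U 0 j)⁻¹ * T 0 := by
        rw [hT0' j]
        calc U 0 j * (s ^ (2 * j) * T 0) * (U 0 j)⁻¹ =
            U 0 j * s ^ (2 * j) * (U 0 j)⁻¹ * (U 0 j * T 0) * (U 0 j)⁻¹ := by group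
          _ = U 0 j * s ^ (2 * j) * (U 0 j)⁻¹ * (T 0 * U 0 j) * (U 0 j)⁻¹ := by rw [hVT]
          _ = _ := by group
      rw [h3, hT0' (-j)] at h1
      have h4 : U (-j) (2 * j) = U 0 j * s ^ (2 * j) * (U 0 j)⁻¹ * T 0 *
          (s ^ (2 * -j) * T 0)⁻¹ := by rw [h1]; group
      rw [h4, mul_inv_rev, ← zpow_neg]
      have h5 : -(2 * -j) = 2 * j := by ring
      rw [h5]; group
    have hVi : (U 0 j)⁻¹ = U 0 j := by rw [inv_eq_iff_mul_eq_one]; exact hUsq 0 j
    rw [h2]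
    have e1 : (U 0 j * s ^ (2 * j) * (U 0 j)⁻¹ * s ^ (2 * j)) (P (-j)) =
        U 0 j ((s ^ (2 * j)) ((U 0 j)⁻¹ ((s ^ (2 * j)) (P (-j))))) := rfl
    rw [e1, hsP, show 2 * j + -j = j by ring, hVi, hVPj, hsP, show 2 * j + j = 3 * j by ring,
      ← hVPm]
    have e2 : U 0 j (U 0 j (P (-j))) = (U 0 j * U 0 j) (P (-j)) := rfl
    rw [e2, hUsq]; rfl
  have h2b : ∀ i j : ℤ, U i (2 * j) (P i) = P i := by
    intro i j
    have h1 := hshift (i + j) (-j) (2 * j)
    rw [show -j + (i + j) = i by ring] at h1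
    rw [← h1]
    have e1 : (s ^ (i + j) * U (-j) (2 * j) * (s ^ (i + j))⁻¹) (P i) =
        (s ^ (i + j)) (U (-j) (2 * j) ((s ^ (i + j))⁻¹ (P i))) := rfl
    rw [e1, ← zpow_neg, hsP, show -(i + j) + i = -j by ring, h2a, hsP,
      show i + j + -j = i by ring]
  have hPm : ∀ k : ℤ, P (k + m) = P k := by
    intro k
    rw [hP]
    simp only
    rw [zpow_add, zpow_natCast, hsm, mul_one]
  have h2c : ∀ i d : ℤ, U i d (P i) = P i := by
    intro i d
    rcases Int.even_or_odd d with hd | hd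
    · obtain ⟨j, rfl⟩ := hd
      have := h2b i j
      rwa [two_mul] at this
    · obtain ⟨k, rfl⟩ := hm
      have h3 : Even (d + ((2 * k + 1 : ℕ) : ℤ)) := by
        obtain ⟨r, rfl⟩ := hd
        exact ⟨r + k + 1, by push_cast; ring⟩
      obtain ⟨j, hj⟩ := h3
      have h4 : U i d = U i (2 * j) := by
        rw [hU]
        simp only
        rw [two_mul, ← hj, ← add_assoc, hPm]
      rw [h4, h2b]
  have h2d : ∀ i d : ℤ, U i d (R i) = R i := by
    intro i d
    have h1 : T i (P i) = R i := by rw [hTP, show 2 * i - i = i by ring]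
    calc U i d (R i) = (U i d * T i) (P i) := by rw [Perm.mul_apply, h1]
      _ = (T i * U i d) (P i) := by rw [F4]
      _ = R i := by rw [Perm.mul_apply, h2c, h1]
  -- (4)
  have h4 : ∀ i d : ℤ, tt L (P (i + d)) (P i) (R (i - d)) = R i := by
    intro i d
    have h1 : T i (P i) = R i := by rw [hTP, show 2 * i - i = i by ring]
    rw [h.tt_rot, F1, Perm.mul_apply, h1, h2d]
  -- (5)
  have h5 : tt L (R 4) (R 3) (R 2) = tt L (R 0) (R (-1)) (R (-2)) := by
    obtain ⟨w, hw⟩ : ∃ w, w = tt L (P 0) (P 1) (P 2) := ⟨_, rfl⟩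
    obtain ⟨u', hu'⟩ : ∃ u', u' = uu L (P 0) (P 1) (P 2) := ⟨_, rfl⟩
    have e1 : tt L (P 2) w = u' * tt L (P 0) (P 1) := by rw [hw, hu', h.rs]
    have e2 : tt L (P 0) w = u' * tt L (P 1) (P 2) := by rw [hw, hu', h.ps]
    have g1 : tt L (P 0) (P 1) (R 2) = R 1 := by
      have := h4 1 (-1)
      rwa [show (1 : ℤ) + -1 = 0 by ring, show (1 : ℤ) - -1 = 2 by ring] at this
    have g2 : tt L (P 1) (P 2) (R 0) = R 1 := by
      have := h4 1 1
      rw [show (1 : ℤ) + 1 = 2 by ring, show (1 : ℤ) - 1 = 0 by ring] at this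
      rw [hTt']; exact this
    have k1 : T 2 w = u' (R 1) := by
      rw [hTt, h.tt_rot, e1, Perm.mul_apply, g1]
    have k2 : T 0 w = u' (R 1) := by
      rw [hTt, h.tt_rot, e2, Perm.mul_apply, g2]
    have m1 : T 2 w = tt L (R 4) (R 3) (R 2) := by
      have := h.tt_conj (hTG 2) (P 0) (P 1)
      rw [hTP, hTP, show (2 : ℤ) * 2 - 0 = 4 by ring, show (2 : ℤ) * 2 - 1 = 3 by ring] at this
      rw [← this, hw]
      have e3 : (T 2 * tt L (P 0) (P 1) * (T 2)⁻¹) (R 2) =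
          T 2 (tt L (P 0) (P 1) ((T 2)⁻¹ (R 2))) := rfl
      rw [e3]
      congr 2
      rw [eq_comm, Perm.inv_eq_iff_eq, hTP]
      rfl
    have m2 : T 0 w = tt L (R 0) (R (-1)) (R (-2)) := by
      have := h.tt_conj (hTG 0) (P 0) (P 1)
      rw [hTP, hTP, show (2 : ℤ) * 0 - 0 = 0 by ring, show (2 : ℤ) * 0 - 1 = -1 by ring] at this
      rw [← this, hw]
      have e3 : (T 0 * tt L (P 0) (P 1) * (T 0)⁻¹) (R (-2)) =
          T 0 (tt L (P 0) (P 1) ((T 0)⁻¹ (R (-2)))) := rfl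
      rw [e3]
      congr 2
      rw [eq_comm, Perm.inv_eq_iff_eq, hTP]
      rfl
    rw [← m1, ← m2, k1, k2]
  have h6 : ∀ E : Q, (s ^ (4 : ℤ)) E = E → s E = E := by
    intro E hE
    obtain ⟨k, rfl⟩ := hm
    -- `s` is a power of `s^4` times a power of `s^m`
    have hfix : ∀ n : ℤ, (s ^ (4 * n)) E = E := by
      intro n
      have hst : s ^ (4 : ℤ) ∈ MulAction.stabilizer (Perm Q) E := hE
      have := (MulAction.stabilizer (Perm Q) E).zpow_mem hst n
      rw [← zpow_mul] at this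
      exact this
    have hsm' : ∀ n : ℤ, s ^ (((2 * k + 1 : ℕ) : ℤ) * n) = 1 := by
      intro n; rw [zpow_mul, zpow_natCast, hsm, one_zpow]
    rcases Nat.even_or_odd k with ⟨r, hr⟩ | ⟨r, hr⟩
    · -- m = 4 r + 1
      have e1 : s = s ^ (4 * (-(r : ℤ))) * s ^ (((2 * k + 1 : ℕ) : ℤ) * 1) := by
        rw [← zpow_add]
        have : 4 * (-(r : ℤ)) + ((2 * k + 1 : ℕ) : ℤ) * 1 = 1 := by rw [hr]; push_cast; ring
        rw [this, zpow_one]
      rw [hsm', mul_one] at e1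
      rw [e1]; exact hfix _
    · -- m = 4 r + 3
      have e1 : s = s ^ (4 * ((r : ℤ) + 1)) * s ^ (((2 * k + 1 : ℕ) : ℤ) * (-1)) := by
        rw [← zpow_add]
        have : 4 * ((r : ℤ) + 1) + ((2 * k + 1 : ℕ) : ℤ) * (-1) = 1 := by rw [hr]; push_cast; ring
        rw [this, zpow_one]
      rw [hsm', mul_one] at e1
      rw [e1]; exact hfix _
  have hconj3 : ∀ k a b c : ℤ, (s ^ k) (tt L (R a) (R b) (R c)) =
      tt L (R (k + a)) (R (k + b)) (R (k + c)) := by
    intro k a b c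
    have := h.tt_conj (hsG k) (R a) (R b)
    rw [hsR, hsR] at this
    rw [← this]
    have e3 : (s ^ k * tt L (R a) (R b) * (s ^ k)⁻¹) (R (k + c)) =
        (s ^ k) (tt L (R a) (R b) ((s ^ k)⁻¹ (R (k + c)))) := rfl
    rw [e3]
    congr 2
    rw [eq_comm, Perm.inv_eq_iff_eq, hsR]
  have h7 : R 1 = R (-2) := by
    have h8 : (s ^ (4 : ℤ)) (tt L (R 0) (R (-1)) (R (-2))) = tt L (R 0) (R (-1)) (R (-2)) := by
      rw [hconj3]; exact h5
    have h9 := h6 _ h8
    have h10 := hconj3 1 0 (-1) (-2)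
    rw [zpow_one, h9] at h10
    rw [show (1 : ℤ) + 0 = 1 by ring, show (1 : ℤ) + -1 = 0 by ring,
      show (1 : ℤ) + -2 = -1 by ring, hTt' (R 1) (R 0), h.tt_rot (R 0) (R 1) (R (-1))] at h10
    exact ((tt L (R 0) (R (-1))).injective h10).symm
  have h8 : s ^ (3 : ℤ) = 1 := by
    have hq3 : (s ^ (3 : ℤ)) q = q := by
      have e1 : (s ^ (2 : ℤ)) (R 1) = (s ^ (2 : ℤ)) (R (-2)) := by rw [h7]
      rw [hsR, hsR, show (2 : ℤ) + 1 = 3 by ring, show (2 : ℤ) + -2 = 0 by ring, hR] at e1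
      simpa using e1
    have hodd : (s ^ (3 : ℤ)) ^ m = 1 := by
      rw [← zpow_natCast, zpow_comm, zpow_natCast, hsm, one_zpow]
    have hi : tt L p q * s ^ (3 : ℤ) * (tt L p q)⁻¹ = (s ^ (3 : ℤ))⁻¹ := by
      rw [hinvk, zpow_neg]
    exact h.inv_fix (hsG 3) hi hq3 hm hodd
  -- (3)
  have h9 : P (-1) = P 0 := by
    have e1 := F5 0 1
    have e2 := h2c 0 1
    have e3 : P (0 + 3 * 1) = P 0 := by
      rw [hP]; simp only
      rw [show (0 : ℤ) + 3 * 1 = 3 by ring, h8]; rfl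
    rw [e3] at e1
    rw [zero_sub] at e1
    exact (U 0 1).injective (e1.trans e2.symm)
  have h10 : s q = q := by
    have hp1 : s p = p := by
      have e1 : (s ^ (1 : ℤ)) (P (-1)) = (s ^ (1 : ℤ)) (P 0) := by rw [h9]
      rw [hsP, hsP, show (1 : ℤ) + -1 = 0 by ring, show (1 : ℤ) + 0 = 1 by ring, hP] at e1
      simpa using e1.symm
    have e2 := hcs (-1)
    have e3 : (tt L p q * s ^ (-1 : ℤ)) p = (s ^ (-(-1) : ℤ) * tt L p q) p := by rw [e2]
    have e4 : (s ^ (-1 : ℤ)) p = p := by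
      rw [zpow_neg, zpow_one, Perm.inv_eq_iff_eq, hp1]
    rw [Perm.mul_apply, Perm.mul_apply, e4, h.tt_left, neg_neg, zpow_one] at e3
    exact e3.symm
  exact h.inv_fix hs hinv h10 hm hsm

end ALoop
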