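import Pool.Agent.H17.E2.Aff
import Pool.Agent.H17.E2.NoInv
import Pool.Agent.H81.LO.BS

/-!
# Exponent two: normal `2`-subgroups, and the case of involutions

`AE.of_two_group`: a nontrivial normal `2`-subgroup of `G` makes the loop associative.
`AE.of_invols`: the same for a normal set of involutions with products of order a power of two.
`AE.of_lam`: the loop is associative if `L_x² = 1` for one `x ≠ e` (for a whole `G`-class of edges).
-/

set_option autoImplicit false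

namespace ALoop

open Equiv

variable {Q : Type*} {G : Subgroup (Perm Q)} {L : Q → Perm Q} {e : Q}

theorem AE.of_two_group [Finite Q] (h : AE G L e) {N : Subgroup (Perm Q)} (hNG : N ≤ G)
    (hN : Nm G N) (hne : N ≠ ⊥) (hp : IsPGroup 2 N) : Assoc L := by
  classical
  have : Fact (Nat.Prime 2) := ⟨Nat.prime_two⟩
  have : Finite N := inferInstance
  have : Nontrivial N := (Subgroup.nontrivial_iff_ne_bot N).2 hne
  have hc : Nontrivial (Subgroup.center N) := hp.center_nontrivial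
  obtain ⟨z, hz⟩ := exists_ne (1 : Subgroup.center N)
  refine h.affine (V := N ⊓ Subgroup.centralizer (N : Set (Perm Q))) (inf_le_left.trans hNG) ?_ ?_ ?_
  · intro g hg m hm
    obtain ⟨h1, h2⟩ := Subgroup.mem_inf.1 hm
    refine Subgroup.mem_inf.2 ⟨hN g hg m h1, ?_⟩
    rw [Subgroup.mem_centralizer_iff] at h2 ⊢
    intro n hn
    have h3 : g⁻¹ * n * g ∈ N := by
      have := hN g⁻¹ (G.inv_mem hg) n hn
      rwa [inv_inv] at this
    have h4 := h2 _ h3
    calc n * (g * m * g⁻¹) = g * ((g⁻¹ * n * g) * m) * g⁻¹ := by group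
      _ = g * (m * (g⁻¹ * n * g)) * g⁻¹ := by rw [h4]
      _ = g * m * g⁻¹ * n := by group
  · intro hb
    apply hz
    have h1 : ((z : N) : Perm Q) ∈ N ⊓ Subgroup.centralizer (N : Set (Perm Q)) := by
      refine Subgroup.mem_inf.2 ⟨(z : N).2, ?_⟩
      rw [Subgroup.mem_centralizer_iff]
      intro n hn
      have := Subgroup.mem_center_iff.1 z.2 ⟨n, hn⟩
      exact congrArg Subtype.val this
    rw [hb, Subgroup.mem_bot] at h1
    exact Subtype.ext (Subtype.ext h1)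
  · intro a ha b hb
    have h1 := (Subgroup.mem_inf.1 ha).2
    rw [Subgroup.mem_centralizer_iff] at h1
    exact (h1 b (Subgroup.mem_inf.1 hb).1).symm

theorem AE.of_invols [Finite Q] (h : AE G L e) {D : Set (Perm Q)} (hDG : ∀ d ∈ D, d ∈ G)
    (hD : ∀ g ∈ G, ∀ d ∈ D, g * d * g⁻¹ ∈ D) (hinv : ∀ d ∈ D, d * d = 1)
    (hpow : ∀ a ∈ D, ∀ b ∈ D, ∃ k : ℕ, (a * b) ^ (2 ^ k) = 1) {z : Perm Q} (hz : z ∈ D)
    (hz1 : z ≠ 1) : Assoc L := by
  classical
  have : Finite G := inferInstance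
  obtain ⟨D', hD'⟩ : ∃ D' : Set G, D' = {x : G | (x : Perm Q) ∈ D} := ⟨_, rfl⟩
  have h1 : ∀ g : G, ∀ a ∈ D', g * a * g⁻¹ ∈ D' := by
    intro g a ha
    rw [hD'] at ha ⊢
    exact hD g g.2 a ha
  have h2 : ∀ a ∈ D', ∀ b ∈ D', IsPGroup 2 (Subgroup.closure {a, b}) := by
    intro a ha b hb
    rw [hD'] at ha hb
    obtain ⟨k, hk⟩ := hpow _ ha _ hb
    exact Pool.Agent.H81.LO.dihedral_two (k := k) (Subtype.ext (hinv _ ha))
      (Subtype.ext (hinv _ hb)) (Subtype.ext hk)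
  have h3 := Pool.Agent.H81.LO.baer_two h1 h2
  have hnorm : ∀ g : G, ∀ n ∈ Subgroup.closure D', g * n * g⁻¹ ∈ Subgroup.closure D' := by
    intro g n hn
    induction hn using Subgroup.closure_induction with
    | mem a ha => exact Subgroup.subset_closure (h1 g a ha)
    | one => simp
    | mul a b _ _ ha hb =>
      have e1 : g * (a * b) * g⁻¹ = (g * a * g⁻¹) * (g * b * g⁻¹) := by group
      rw [e1]; exact Subgroup.mul_mem _ ha hb
    | inv a _ ha =>
      have e1 : g * a⁻¹ * g⁻¹ = (g * a * g⁻¹)⁻¹ := by group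
      rw [e1]; exact Subgroup.inv_mem _ ha
  refine h.of_two_group (N := (Subgroup.closure D').map G.subtype) ?_ ?_ ?_ ?_
  · rintro _ ⟨x, _, rfl⟩; exact x.2
  · rintro g hg _ ⟨x, hx, rfl⟩
    exact ⟨⟨g, hg⟩ * x * ⟨g, hg⟩⁻¹, hnorm ⟨g, hg⟩ x hx, rfl⟩
  · intro hb
    apply hz1
    have h4 : z ∈ (Subgroup.closure D').map G.subtype :=
      ⟨⟨z, hDG z hz⟩, Subgroup.subset_closure (by rw [hD']; exact hz), rfl⟩
    rw [hb, Subgroup.mem_bot] at h4
    exact h4
  · exact h3.map G.subtype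

/-- an element of a finite group has a power of two times odd order; its odd part -/
theorem odd_part {M : Type*} [Group M] [Finite M] (c : M) :
    ∃ k m : ℕ, Odd m ∧ (c ^ (2 ^ k)) ^ m = 1 := by
  have hpos : 0 < orderOf c := orderOf_pos c
  obtain ⟨k, m, hm, hk⟩ := Nat.exists_eq_two_pow_mul_odd (Nat.pos_iff_ne_zero.1 hpos)
  exact ⟨k, m, hm, by rw [← pow_mul, ← hk, pow_orderOf_eq_one]⟩

/-- if the edges of one class are involutions then the loop is associative -/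
theorem AE.of_lam [Finite Q] (h : AE G L e) {x : Q} (hx : x ≠ e) (hl : L x * L x = 1) :
    Assoc L := by
  classical
  obtain ⟨D, hD⟩ : ∃ D : Set (Perm Q), D = {d | ∃ g ∈ G, d = g * L x * g⁻¹} := ⟨_, rfl⟩
  have hinvol : ∀ d ∈ D, d * d = 1 := by
    rw [hD]; rintro _ ⟨g, _, rfl⟩
    calc g * L x * g⁻¹ * (g * L x * g⁻¹) = g * (L x * L x) * g⁻¹ := by group
      _ = 1 := by rw [hl]; group
  have hform : ∀ d ∈ D, ∃ p q : Q, d = tt L p q := by
    rw [hD]; rintro _ ⟨g, hg, rfl⟩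
    exact ⟨_, _, h.conj_L hg x⟩
  have hDG : ∀ d ∈ D, d ∈ G := by
    rw [hD]; rintro _ ⟨g, hg, rfl⟩
    exact G.mul_mem (G.mul_mem hg (h.memL x)) (G.inv_mem hg)
  refine h.of_invols (D := D) (z := L x) hDG ?_ hinvol ?_ ?_ ?_
  · rw [hD]; rintro g hg _ ⟨k, hk, rfl⟩
    exact ⟨g * k, G.mul_mem hg hk, by group⟩
  · intro a ha b hb
    obtain ⟨k, m, hm, hk⟩ := odd_part (a * b)
    refine ⟨k, ?_⟩
    obtain ⟨p, q, hpq⟩ := hform a ha
    have h1 : a * (a * b) ^ 2 ^ k * a⁻¹ = ((a * b) ^ 2 ^ k)⁻¹ := by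
      rw [← conj_pow, ← inv_pow]
      congr 1
      have ha1 : a⁻¹ = a := inv_eq_of_mul_eq_one_left (hinvol a ha)
      have hb1 : b⁻¹ = b := inv_eq_of_mul_eq_one_left (hinvol b hb)
      rw [mul_inv_rev, ha1, hb1, ← mul_assoc, hinvol a ha, one_mul]
    have hG : (a * b) ^ 2 ^ k ∈ G := G.pow_mem (G.mul_mem (hDG a ha) (hDG b hb)) _
    subst hpq
    exact h.no_inv hG h1 hm hk
  · rw [hD]; exact ⟨1, G.one_mem, by group⟩
  · intro h1
    apply hx
    have := h.Le x
    rw [h1] at this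
    exact this.symm

end ALoop
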