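import Pool.Agent.H4.Loop.Defs

/-!
# Automorphic loops of exponent two: the ternary form

`AE G L e`: a commutative automorphic loop with `x x = e`.  `tt L p q` is `g L_x g⁻¹` for any `g` in `G`
with `g e = p`, `g x = q`.  It is symmetric, equivariant, and `tt L p q r` is totally symmetric.  For three
points the commutators of `tt q r`, `tt p r`, `tt p q` are one and the same involution (or `1`).
-/

set_option autoImplicit false

namespace ALoop

open Equiv

variable {Q : Type*}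

/-- a commutative automorphic loop of exponent two (simple: `prim`) -/
structure AE (G : Subgroup (Perm Q)) (L : Q → Perm Q) (e : Q) : Prop where
  memL : ∀ x, L x ∈ G
  Le : ∀ x, L x e = x
  sq : ∀ x, L x x = e
  com : ∀ x y, L x y = L y x
  equi : ∀ g ∈ G, g e = e → ∀ x, g * L x * g⁻¹ = L (g x)
  gen : G = Subgroup.closure (Set.range L)
  prim : ∀ r : Q → Q → Prop, Equivalence r → (∀ g ∈ G, ∀ a b, r a b → r (g a) (g b)) →
    (∀ a b, r a b → a = b) ∨ (∀ a b, r a b)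

/-- `L_p L_{p \ q} L_p⁻¹` -/
def tt (L : Q → Perm Q) (p q : Q) : Perm Q := L p * L ((L p)⁻¹ q) * (L p)⁻¹

/-- the commutator of `tt q r` and `tt p r` -/
def uu (L : Q → Perm Q) (p q r : Q) : Perm Q :=
  tt L q r * tt L p r * (tt L q r)⁻¹ * (tt L p r)⁻¹

variable {G : Subgroup (Perm Q)} {L : Q → Perm Q} {e : Q}

namespace AE

theorem ap_inv (g : Perm Q) (x : Q) : g (g⁻¹ x) = x := g.apply_symm_apply x

theorem inv_ap (g : Perm Q) (x : Q) : g⁻¹ (g x) = x := g.symm_apply_apply x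

theorem Le1 (h : AE G L e) : L e = 1 := by
  ext x
  rw [h.com, h.Le]; rfl

/-- (1) `g L_x g⁻¹ = t(g e, g x)` -/
theorem conj_L (h : AE G L e) {g : Perm Q} (hg : g ∈ G) (x : Q) :
    g * L x * g⁻¹ = tt L (g e) (g x) := by
  have hk : (L (g e))⁻¹ * g ∈ G := G.mul_mem (G.inv_mem (h.memL _)) hg
  have hke : ((L (g e))⁻¹ * g) e = e := by
    rw [Perm.mul_apply, Perm.inv_eq_iff_eq, h.Le]
  have h1 := h.equi _ hk hke x
  unfold tt
  rw [Perm.mul_apply] at h1
  rw [← h1]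
  group

theorem tt_e (h : AE G L e) (x : Q) : tt L e x = L x := by
  unfold tt
  rw [h.Le1]; simp

/-- equivariance -/
theorem tt_conj (h : AE G L e) {g : Perm Q} (hg : g ∈ G) (p q : Q) :
    g * tt L p q * g⁻¹ = tt L (g p) (g q) := by
  have h1 : g * tt L p q * g⁻¹ = (g * L p) * L ((L p)⁻¹ q) * (g * L p)⁻¹ := by
    unfold tt; group
  rw [h1, h.conj_L (G.mul_mem hg (h.memL p)), Perm.mul_apply, Perm.mul_apply, h.Le, ap_inv]

theorem mem_tt (h : AE G L e) (p q : Q) : tt L p q ∈ G :=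
  G.mul_mem (G.mul_mem (h.memL _) (h.memL _)) (G.inv_mem (h.memL _))

theorem tt_symm (h : AE G L e) (p q : Q) : tt L p q = tt L q p := by
  have h0 : ∀ x, tt L x e = L x := by
    intro x
    have := h.conj_L (h.memL x) x
    rw [h.Le, h.sq] at this
    rw [← this]; group
  have h1 := h.tt_conj (h.memL p) e ((L p)⁻¹ q)
  have h2 := h.tt_conj (h.memL p) ((L p)⁻¹ q) e
  rw [h.tt_e] at h1
  rw [h0] at h2
  rw [h.Le, ap_inv] at h1 h2
  rw [← h1, ← h2]

theorem tt_self (h : AE G L e) (p : Q) : tt L p p = 1 := by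
  unfold tt
  have : (L p)⁻¹ p = e := by rw [Perm.inv_eq_iff_eq, h.Le]
  rw [this, h.Le1]; simp

theorem tt_left (h : AE G L e) (p q : Q) : tt L p q p = q := by
  unfold tt
  have : (L p)⁻¹ p = e := by rw [Perm.inv_eq_iff_eq, h.Le]
  rw [Perm.mul_apply, Perm.mul_apply, this, h.Le, ap_inv]

theorem tt_right (h : AE G L e) (p q : Q) : tt L p q q = p := by
  rw [h.tt_symm, h.tt_left]

/-- `f(p,q,r)` is totally symmetric (with `tt_symm`) -/
theorem tt_rot (h : AE G L e) (p q r : Q) : tt L p q r = tt L p r q := by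
  unfold tt
  rw [Perm.mul_apply, Perm.mul_apply, Perm.mul_apply, Perm.mul_apply, h.com ((L p)⁻¹ q)]

/-- every element of `G` which fixes or swaps `p`, `q` commutes with `t(p,q)` -/
theorem tt_cent (h : AE G L e) {g : Perm Q} (hg : g ∈ G) {p q : Q} (hp : g p = p) (hq : g q = q) :
    g * tt L p q = tt L p q * g := by
  have := h.tt_conj hg p q
  rw [hp, hq] at this
  rw [mul_inv_eq_iff_eq_mul] at this
  exact this

theorem tt_cent' (h : AE G L e) {g : Perm Q} (hg : g ∈ G) {p q : Q} (hp : g p = q) (hq : g q = p) :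
    g * tt L p q = tt L p q * g := by
  have := h.tt_conj hg p q
  rw [hp, hq, ← h.tt_symm p q] at this
  rw [mul_inv_eq_iff_eq_mul] at this
  exact this

section three

variable (h : AE G L e) (p q r : Q)

include h

/-- `t(p,s)` as a conjugate, `s = f(p,q,r)` -/
theorem ps_1 : tt L p r * tt L q r * (tt L p r)⁻¹ = tt L p (tt L p q r) := by
  rw [h.tt_conj (h.mem_tt p r) q r, h.tt_right, h.tt_rot p r q, h.tt_symm]

theorem ps_2 : tt L p q * tt L q r * (tt L p q)⁻¹ = tt L p (tt L p q r) := by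
  rw [h.tt_conj (h.mem_tt p q) q r, h.tt_right]

theorem uu_eq1 : uu L p q r = tt L q (tt L p q r) * (tt L p r)⁻¹ := by
  unfold uu
  rw [h.tt_conj (h.mem_tt q r) p r, h.tt_right, h.tt_symm, h.tt_rot q r p, h.tt_symm q p]

theorem uu_eq2 : uu L p q r = tt L p q * tt L p r * (tt L p q)⁻¹ * (tt L p r)⁻¹ := by
  rw [h.uu_eq1, h.tt_conj (h.mem_tt p q) p r, h.tt_left]

/-- the inverse of `u`: `[B, A]` -/
theorem uu_inv1 : (uu L p q r)⁻¹ = tt L p (tt L p q r) * (tt L q r)⁻¹ := by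
  have h1 := h.ps_1 p q r
  rw [← h1]
  unfold uu
  group

/-- `[A, C] = [B, C] = u⁻¹` -/
theorem uu_inv2 : (uu L p q r)⁻¹ = tt L r (tt L p q r) * (tt L p q)⁻¹ := by
  have h1 : tt L p r * tt L p q * (tt L p r)⁻¹ = tt L r (tt L p q r) := by
    rw [h.tt_conj (h.mem_tt p r) p q, h.tt_left, h.tt_rot p r q]
  rw [← h1, h.uu_eq2]
  group

theorem uu_eq3 : tt L r (tt L p q r) * (tt L p q)⁻¹ =
    tt L q r * tt L p q * (tt L q r)⁻¹ * (tt L p q)⁻¹ := by
  have h1 : tt L q r * tt L p q * (tt L q r)⁻¹ = tt L r (tt L p q r) := by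
    rw [h.tt_conj (h.mem_tt q r) p q, h.tt_left, h.tt_rot q r p, h.tt_symm q p, h.tt_symm]
  rw [h1]

/-- `u² = 1` -/
theorem uu_sq : uu L p q r * uu L p q r = 1 := by
  -- `u⁻¹ = [A, C]`, and `[C, A] = [B, A] = u⁻¹`
  have h1 := h.uu_inv2 p q r
  rw [h.uu_eq3] at h1
  have h2 : (uu L p q r)⁻¹ = tt L p q * tt L q r * (tt L p q)⁻¹ * (tt L q r)⁻¹ := by
    rw [h.uu_inv1, ← h.ps_2 p q r]
  have h3 : uu L p q r = (uu L p q r)⁻¹ := by
    have h4 : uu L p q r = ((uu L p q r)⁻¹)⁻¹ := (inv_inv _).symm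
    rw [h4, h1, ← h1, h2]
    rw [h2] at h1
    calc (tt L p q * tt L q r * (tt L p q)⁻¹ * (tt L q r)⁻¹)⁻¹ =
        tt L q r * tt L p q * (tt L q r)⁻¹ * (tt L p q)⁻¹ := by group
      _ = tt L p q * tt L q r * (tt L p q)⁻¹ * (tt L q r)⁻¹ := h1.symm
      _ = _ := by group
  calc uu L p q r * uu L p q r = uu L p q r * (uu L p q r)⁻¹ := by rw [← h3]
    _ = 1 := mul_inv_cancel _

theorem uu_inv : (uu L p q r)⁻¹ = uu L p q r := by
  rw [inv_eq_iff_mul_eq_one, h.uu_sq]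

/-- `t(p,s) = u t(q,r)`, `t(q,s) = u t(p,r)`, `t(r,s) = u t(p,q)` -/
theorem ps : tt L p (tt L p q r) = uu L p q r * tt L q r := by
  have := h.uu_inv1 p q r
  rw [h.uu_inv] at this
  rw [this]; group

theorem qs : tt L q (tt L p q r) = uu L p q r * tt L p r := by
  rw [h.uu_eq1]; group

theorem rs : tt L r (tt L p q r) = uu L p q r * tt L p q := by
  have := h.uu_inv2 p q r
  rw [h.uu_inv] at this
  rw [this]; group

end three

/-- `[L_x, L_y]² = 1` for all `x`, `y` -/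
theorem comm_sq (h : AE G L e) (x y : Q) :
    (L x * L y * (L x)⁻¹ * (L y)⁻¹) * (L x * L y * (L x)⁻¹ * (L y)⁻¹) = 1 := by
  have h1 := h.uu_eq2 e x y
  rw [h.tt_e, h.tt_e] at h1
  rw [← h1]
  exact h.uu_sq e x y

/-- equivariance of `u` -/
theorem uu_conj (h : AE G L e) {g : Perm Q} (hg : g ∈ G) (p q r : Q) :
    g * uu L p q r * g⁻¹ = uu L (g p) (g q) (g r) := by
  unfold uu
  rw [← h.tt_conj hg, ← h.tt_conj hg]
  group

theorem mem_uu (h : AE G L e) (p q r : Q) : uu L p q r ∈ G :=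
  G.mul_mem (G.mul_mem (G.mul_mem (h.mem_tt _ _) (h.mem_tt _ _)) (G.inv_mem (h.mem_tt _ _)))
    (G.inv_mem (h.mem_tt _ _))

/-- `u` fixes `s = f(p,q,r)` -/
theorem uu_s (h : AE G L e) (p q r : Q) : uu L p q r (tt L p q r) = tt L p q r := by
  have h1 := h.rs p q r
  have h2 : (uu L p q r * tt L p q) r = tt L p q r := by
    rw [← h1, h.tt_left]
  simpa using h2

/-- `A` commutes with `B⁻¹ C` -/
theorem prod_comm (h : AE G L e) (p q r : Q) :
    ((tt L p r)⁻¹ * tt L p q) * tt L q r = tt L q r * ((tt L p r)⁻¹ * tt L p q) := by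
  have h1 := h.ps_1 p q r
  have h2 := h.ps_2 p q r
  rw [← h1] at h2
  have h3 : tt L p q * tt L q r = tt L p r * tt L q r * (tt L p r)⁻¹ * tt L p q := by
    rw [← h2]; group
  calc (tt L p r)⁻¹ * tt L p q * tt L q r = (tt L p r)⁻¹ * (tt L p q * tt L q r) := by group
    _ = (tt L p r)⁻¹ * (tt L p r * tt L q r * (tt L p r)⁻¹ * tt L p q) := by rw [h3]
    _ = _ := by group

end AE

end ALoop
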